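import Mathlib

/-!
Graph minors (branch set models), square grids and grid-forcing constants.
-/

set_option autoImplicit false

namespace Pool.Agent.Helper810.Grid

open SimpleGraph

/-- `H` is a minor of `G`: there are pairwise disjoint connected (in particular nonempty) branch
sets, one for each vertex of `H`, with an edge of `G` between any two branch sets belonging to
adjacent vertices of `H` -/
def IsMinor {W V : Type} (H : SimpleGraph W) (G : SimpleGraph V) : Prop :=
  ∃ B : W → Set V, (∀ x, (G.induce (B x)).Connected) ∧
    (∀ x y, x ≠ y → Disjoint (B x) (B y)) ∧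
    ∀ x y, H.Adj x y → ∃ u ∈ B x, ∃ v ∈ B y, G.Adj u v

/-- the `t × t` grid `P_t □ P_t` -/
def grid (t : ℕ) : SimpleGraph (Fin t × Fin t) := pathGraph t □ pathGraph t

/-- `c` is grid-forcing: for every positive integer `t`, every finite graph with at least one
vertex and average degree `2 |E| / |V|` at least `c t ^ 2` has the `t × t` grid as a minor -/
def GridForcing (c : ℝ) : Prop :=
  ∀ t : ℕ, 1 ≤ t → ∀ (V : Type) [Fintype V] [Nonempty V] (G : SimpleGraph V),
    c * (t : ℝ) ^ 2 ≤ 2 * (G.edgeSet.ncard : ℝ) / (Fintype.card V : ℝ) → IsMinor (grid t) G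

end Pool.Agent.Helper810.Grid
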