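import Mathlib
import Pool.Agent.Helper810_Grid.Defs

/-!
Transitivity of the minor relation and the counting lemmas for contractions.
-/

set_option autoImplicit false
set_option linter.unusedSectionVars false

namespace Pool.Agent.Helper810.Grid

open SimpleGraph Finset

/-- the graph obtained from `G` by identifying the vertices with the same image under `q` -/
def quot {V W : Type} (G : SimpleGraph V) (q : V → W) : SimpleGraph W where
  Adj a b := a ≠ b ∧ ∃ x y, q x = a ∧ q y = b ∧ G.Adj x y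
  symm := ⟨fun _ _ ⟨h1, x, y, h2, h3, h4⟩ => ⟨h1.symm, y, x, h3, h2, h4.symm⟩⟩
  loopless := ⟨fun _ h => h.1 rfl⟩

/-- the minor relation is transitive -/
lemma minor_trans {V W R : Type} {G : SimpleGraph V} {H : SimpleGraph W} {F : SimpleGraph R}
    (h1 : IsMinor F H) (h2 : IsMinor H G) : IsMinor F G := by
  classical
  obtain ⟨A, hA1, hA2, hA3⟩ := h1
  obtain ⟨B, hB1, hB2, hB3⟩ := h2
  let D : R → Set V := fun x => {v | ∃ y ∈ A x, v ∈ B y}
  refine ⟨D, ?_, ?_, ?_⟩
  · intro x
    have hin : ∀ y ∈ A x, ∀ v ∈ B y, v ∈ D x := fun y hy v hv => ⟨y, hy, hv⟩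
    -- inside one branch set
    have hr1 : ∀ y (hy : y ∈ A x) (u v : V) (hu : u ∈ B y) (hv : v ∈ B y),
        (G.induce (D x)).Reachable ⟨u, hin y hy u hu⟩ ⟨v, hin y hy v hv⟩ := by
      intro y hy u v hu hv
      let φ : G.induce (B y) →g G.induce (D x) :=
        { toFun := fun z => ⟨z.1, hin y hy z.1 z.2⟩
          map_rel' := fun {a b} hab => hab }
      exact ((hB1 y).preconnected ⟨u, hu⟩ ⟨v, hv⟩).map φ
    have hr2 : ∀ y y' : A x, (H.induce (A x)).Reachable y y' →
        ∀ (u v : V) (hu : u ∈ B y) (hv : v ∈ B y'),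
        (G.induce (D x)).Reachable ⟨u, hin y y.2 u hu⟩ ⟨v, hin y' y'.2 v hv⟩ := by
      rintro y y' ⟨w⟩
      induction w with
      | @nil a => intro u v hu hv; exact hr1 a a.2 u v hu hv
      | @cons a b c hab w ih =>
        intro u v hu hv
        obtain ⟨s, hs, t, ht, hst⟩ := hB3 a b hab
        have h1 := hr1 a a.2 u s hu hs
        have h2 : (G.induce (D x)).Adj ⟨s, hin a a.2 s hs⟩ ⟨t, hin b b.2 t ht⟩ := hst
        exact (h1.trans h2.reachable).trans (ih t v ht hv)
    obtain ⟨y0⟩ := (hA1 x).nonempty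
    obtain ⟨v0⟩ := (hB1 y0).nonempty
    rw [connected_iff_exists_forall_reachable]
    refine ⟨⟨v0.1, hin _ y0.2 _ v0.2⟩, ?_⟩
    rintro ⟨v, y, hy, hv⟩
    exact hr2 y0 ⟨y, hy⟩ ((hA1 x).preconnected _ _) v0.1 v v0.2 hv
  · intro x y hxy
    rw [Set.disjoint_left]
    rintro v ⟨a, ha, hva⟩ ⟨b, hb, hvb⟩
    have hab : a ≠ b := by
      rintro rfl
      exact Set.disjoint_left.1 (hA2 x y hxy) ha hb
    exact Set.disjoint_left.1 (hB2 a b hab) hva hvb
  · intro x y hxy
    obtain ⟨a, ha, b, hb, hab⟩ := hA3 x y hxy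
    obtain ⟨u, hu, v, hv, huv⟩ := hB3 a b hab
    exact ⟨u, ⟨a, ha, hu⟩, v, ⟨b, hb, hv⟩, huv⟩

lemma minor_refl {V : Type} (G : SimpleGraph V) : IsMinor G G := by
  refine ⟨fun v => {v}, ?_, ?_, ?_⟩
  · intro v
    rw [connected_iff_exists_forall_reachable]
    refine ⟨⟨v, rfl⟩, ?_⟩
    rintro ⟨w, rfl⟩
    exact Reachable.refl _
  · intro x y hxy
    exact Set.disjoint_singleton.2 hxy
  · intro x y hxy
    exact ⟨x, rfl, y, rfl, hxy⟩


section Counting

open Classical

/-- the neighbours of `v` -/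
noncomputable def nb {V : Type} [Fintype V] (G : SimpleGraph V) (v : V) : Finset V :=
  univ.filter (fun y => G.Adj v y)

/-- the common neighbours of `v` and `w` -/
noncomputable def cn {V : Type} [Fintype V] (G : SimpleGraph V) (v w : V) : Finset V :=
  univ.filter (fun y => G.Adj v y ∧ G.Adj w y)

lemma mem_cn {V : Type} [Fintype V] {G : SimpleGraph V} {v w y : V} :
    y ∈ cn G v w ↔ G.Adj v y ∧ G.Adj w y := by
  simp [cn]

/-- the number of ordered pairs of adjacent vertices (twice the number of edges) -/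
noncomputable def pr {V : Type} [Fintype V] (G : SimpleGraph V) : ℕ :=
  ((univ : Finset (V × V)).filter (fun x => G.Adj x.1 x.2)).card

lemma mem_nb {V : Type} [Fintype V] {G : SimpleGraph V} {v y : V} : y ∈ nb G v ↔ G.Adj v y := by
  simp [nb]

lemma pr_eq {V : Type} [Fintype V] (G : SimpleGraph V) : pr G = ∑ v, (nb G v).card := by
  unfold pr
  rw [card_filter, Fintype.sum_prod_type]
  apply sum_congr rfl
  intro v _
  rw [nb, card_filter]

/-- minors by deleting vertices and edges -/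
lemma minor_sub {V V' : Type} {G : SimpleGraph V} {G' : SimpleGraph V'} (f : V' → V)
    (hf : Function.Injective f) (h : ∀ u v, G'.Adj u v → G.Adj (f u) (f v)) : IsMinor G' G :=
  by
  refine ⟨fun v => {f v}, ?_, ?_, ?_⟩
  · intro v
    rw [connected_iff_exists_forall_reachable]
    refine ⟨⟨f v, rfl⟩, ?_⟩
    rintro ⟨w, rfl⟩
    exact Reachable.refl _
  · intro x y hxy
    exact Set.disjoint_singleton.2 (fun h' => hxy (hf h'))
  · intro x y hxy
    exact ⟨f x, rfl, f y, rfl, h _ _ hxy⟩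

/-- the vertex map of the contraction of the edge `u v` -/
noncomputable def cmap {V : Type} (u v : V) (huv : u ≠ v) : V → {x : V // x ≠ v} :=
  fun x => if h : x = v then ⟨u, huv⟩ else ⟨x, h⟩

lemma cmap_v {V : Type} {u v : V} (huv : u ≠ v) : cmap u v huv v = ⟨u, huv⟩ := by simp [cmap]

lemma cmap_ne {V : Type} {u v : V} (huv : u ≠ v) {x : V} (hx : x ≠ v) :
    cmap u v huv x = ⟨x, hx⟩ := by simp [cmap, hx]

lemma cmap_eq {V : Type} {u v : V} (huv : u ≠ v) {x y : V}
    (h : cmap u v huv x = cmap u v huv y) : x = y ∨ (x = u ∧ y = v) ∨ (x = v ∧ y = u) := by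
  by_cases hx : x = v
  · by_cases hy : y = v
    · exact Or.inl (hx.trans hy.symm)
    · rw [hx, cmap_v, cmap_ne huv hy, Subtype.mk.injEq] at h
      exact Or.inr (Or.inr ⟨hx, h.symm⟩)
  · by_cases hy : y = v
    · rw [hy, cmap_v, cmap_ne huv hx, Subtype.mk.injEq] at h
      exact Or.inr (Or.inl ⟨h, hy⟩)
    · rw [cmap_ne huv hx, cmap_ne huv hy, Subtype.mk.injEq] at h
      exact Or.inl h

lemma contract_minor {V : Type} {G : SimpleGraph V} {u v : V} (h : G.Adj u v) :
    IsMinor (quot G (cmap u v h.ne)) G := by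
  refine ⟨fun a => {x | cmap u v h.ne x = a}, ?_, ?_, ?_⟩
  · rintro ⟨a, ha⟩
    rw [connected_iff_exists_forall_reachable]
    refine ⟨⟨a, cmap_ne h.ne ha⟩, ?_⟩
    rintro ⟨x, hx⟩
    have hx' : cmap u v h.ne a = cmap u v h.ne x := by
      rw [cmap_ne h.ne ha]
      exact hx.symm
    rcases cmap_eq h.ne hx' with h1 | ⟨h1, h2⟩ | ⟨h1, h2⟩
    · subst h1
      exact Reachable.refl _
    · subst h1; subst h2
      exact Adj.reachable h
    · exact absurd h1 ha
  · intro x y hxy
    rw [Set.disjoint_left]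
    rintro z rfl h2
    exact hxy h2
  · rintro x y ⟨-, a, b, ha, hb, hab⟩
    exact ⟨a, ha, b, hb, hab⟩

/-- the number of edges after a contraction -/
lemma pr_contract {V : Type} [Fintype V] {G : SimpleGraph V} {u v : V} (h : G.Adj u v) :
    pr G ≤ pr (quot G (cmap u v h.ne)) + 2 * (1 + (nb G u ∩ nb G v).card) := by
  set C := nb G u ∩ nb G v with hC
  set B : Finset (V × V) := {(u, v), (v, u)} ∪ (C.image (fun b => (v, b)) ∪ C.image (fun b => (b, v)))
    with hB
  have hBc : B.card ≤ 2 * (1 + C.card) := by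
    have h1 := card_union_le ({(u, v), (v, u)} : Finset (V × V))
      (C.image (fun b => (v, b)) ∪ C.image (fun b => (b, v)))
    have h2 := card_union_le (C.image (fun b => (v, b))) (C.image (fun b => (b, v)))
    have h3 := card_image_le (s := C) (f := fun b => (v, b))
    have h4 := card_image_le (s := C) (f := fun b => (b, v))
    have h5 : ({(u, v), (v, u)} : Finset (V × V)).card ≤ 2 := card_le_two
    rw [hB]
    omega
  set P := (univ : Finset (V × V)).filter (fun x => G.Adj x.1 x.2) with hP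
  have h1 : (P \ B).card ≤ pr (quot G (cmap u v h.ne)) := by
    unfold pr
    refine card_le_card_of_injOn (fun x => (cmap u v h.ne x.1, cmap u v h.ne x.2)) ?_ ?_
    · rintro ⟨a, b⟩ hab
      rw [mem_coe, mem_sdiff, hP, mem_filter, hB] at hab
      obtain ⟨⟨-, hab⟩, hnB⟩ := hab
      simp only [mem_union, mem_insert, mem_singleton, Prod.mk.injEq, not_or] at hnB
      rw [mem_coe, mem_filter]
      refine ⟨mem_univ _, ?_, a, b, rfl, rfl, hab⟩
      intro heq
      rcases cmap_eq h.ne heq with h1 | ⟨h1, h2⟩ | ⟨h1, h2⟩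
      · exact hab.ne h1
      · exact hnB.1.1 ⟨h1, h2⟩
      · exact hnB.1.2 ⟨h1, h2⟩
    · rintro ⟨a, b⟩ hab ⟨a', b'⟩ hab' heq
      rw [mem_coe, mem_sdiff, hP, mem_filter, hB] at hab hab'
      obtain ⟨⟨-, hab⟩, hnB⟩ := hab
      obtain ⟨⟨-, hab'⟩, hnB'⟩ := hab'
      simp only [mem_union, mem_insert, mem_singleton, Prod.mk.injEq, not_or, mem_image,
        not_exists, not_and, hC, mem_inter, mem_nb] at hnB hnB' hab hab'
      obtain ⟨e1, e2⟩ := Prod.mk.inj heq
      dsimp only at e1 e2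
      have hs := hab.symm
      have hs' := hab'.symm
      rcases cmap_eq h.ne e1 with h1 | ⟨h1, h2⟩ | ⟨h1, h2⟩ <;>
        rcases cmap_eq h.ne e2 with h3 | ⟨h3, h4⟩ | ⟨h3, h4⟩
      · rw [h1, h3]
      · subst h1; subst h3; subst h4
        exact absurd rfl (hnB'.2.2 a ⟨hs, hs'⟩ rfl)
      · subst h1; subst h3; subst h4
        exact absurd rfl (hnB.2.2 a ⟨hs', hs⟩ rfl)
      · subst h1; subst h2; subst h3
        exact absurd rfl (hnB'.2.1 b ⟨hab, hab'⟩ rfl)
      · rw [h1, h3] at hab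
        exact absurd hab (G.loopless.irrefl _)
      · exact absurd h3 (hnB.1.1 h1)
      · subst h1; subst h2; subst h3
        exact absurd rfl (hnB.2.1 b ⟨hab', hab⟩ rfl)
      · exact absurd h3 (hnB.1.2 h1)
      · rw [h1, h3] at hab
        exact absurd hab (G.loopless.irrefl _)
  have h2 : P.card ≤ (P \ B).card + B.card := card_le_card_sdiff_add_card
  have h3 : pr G = P.card := rfl
  omega

lemma pr_quot_le {V W : Type} [Fintype V] [Fintype W] (G : SimpleGraph V) (q : V → W) :
    pr (quot G q) ≤ pr G := by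
  unfold pr
  have h1 : (univ : Finset (W × W)).filter (fun x => (quot G q).Adj x.1 x.2) ⊆
      ((univ : Finset (V × V)).filter (fun x => G.Adj x.1 x.2)).image
        (fun x => (q x.1, q x.2)) := by
    rintro ⟨a, b⟩ hab
    rw [mem_filter] at hab
    obtain ⟨-, -, x, y, hx, hy, hxy⟩ := hab
    dsimp only at hx hy
    subst hx; subst hy
    exact mem_image.2 ⟨(x, y), mem_filter.2 ⟨mem_univ _, hxy⟩, rfl⟩
  exact (card_le_card h1).trans card_image_le

/-- deleting an edge -/
lemma pr_delete {V : Type} [Fintype V] {G : SimpleGraph V} {u v : V} (h : G.Adj u v) :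
    pr (G.deleteEdges {s(u, v)}) + 2 = pr G := by
  have h1 : (univ : Finset (V × V)).filter (fun x => G.Adj x.1 x.2) =
      ((univ : Finset (V × V)).filter (fun x => (G.deleteEdges {s(u, v)}).Adj x.1 x.2)) ∪
        {(u, v), (v, u)} := by
    ext ⟨a, b⟩
    simp only [mem_filter, mem_univ, true_and, mem_union, deleteEdges_adj, Set.mem_singleton_iff,
      Sym2.eq_iff, mem_insert, mem_singleton, Prod.mk.injEq]
    constructor
    · intro h'
      by_cases h2 : (a = u ∧ b = v) ∨ (a = v ∧ b = u)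
      · exact Or.inr h2
      · exact Or.inl ⟨h', h2⟩
    · rintro (h' | ⟨rfl, rfl⟩ | ⟨rfl, rfl⟩)
      · exact h'.1
      · exact h
      · exact h.symm
  have h2 : Disjoint ((univ : Finset (V × V)).filter
      (fun x => (G.deleteEdges {s(u, v)}).Adj x.1 x.2)) {(u, v), (v, u)} := by
    rw [Finset.disjoint_left]
    rintro ⟨a, b⟩ h1 h2
    simp only [mem_filter, mem_univ, true_and, deleteEdges_adj, Set.mem_singleton_iff,
      Sym2.eq_iff, mem_insert, mem_singleton, Prod.mk.injEq] at h1 h2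
    exact h1.2 h2
  have h3 : ({(u, v), (v, u)} : Finset (V × V)).card = 2 := by
    rw [card_pair]
    intro h'
    exact h.ne (Prod.mk.inj h').1
  unfold pr
  rw [h1, card_union_of_disjoint h2, h3]
  congr!

/-- deleting an isolated vertex -/
lemma pr_isolated {V : Type} [Fintype V] {G : SimpleGraph V} {v : V} (h : nb G v = ∅) :
    pr (G.induce {x | x ≠ v}) = pr G := by
  unfold pr
  refine card_bij (fun x _ => (x.1.1, x.2.1)) ?_ ?_ ?_
  · rintro ⟨⟨a, ha⟩, ⟨b, hb⟩⟩ hab
    simp only [mem_filter, mem_univ, true_and] at hab ⊢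
    exact hab
  · rintro ⟨⟨a, ha⟩, ⟨b, hb⟩⟩ _ ⟨⟨a', ha'⟩, ⟨b', hb'⟩⟩ _ heq
    simp only [Prod.mk.injEq] at heq
    obtain ⟨rfl, rfl⟩ := heq
    rfl
  · rintro ⟨a, b⟩ hab
    simp only [mem_filter, mem_univ, true_and] at hab
    have ha : a ≠ v := by
      rintro rfl
      have : b ∈ nb G a := mem_nb.2 hab
      rw [h] at this
      exact absurd this (notMem_empty _)
    have hb : b ≠ v := by
      rintro rfl
      have : a ∈ nb G b := mem_nb.2 hab.symm
      rw [h] at this
      exact absurd this (notMem_empty _)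
    exact ⟨(⟨a, ha⟩, ⟨b, hb⟩), by simpa using hab, rfl⟩


/-- `pr` is twice the number of edges -/
lemma pr_eq_two_mul {V : Type} [Fintype V] (G : SimpleGraph V) : pr G = 2 * G.edgeSet.ncard := by
  have h1 : pr G = ∑ v, G.degree v := by
    rw [pr_eq]
    apply sum_congr rfl
    intro v _
    rw [← card_neighborFinset_eq_degree]
    congr 1
    ext y
    simp [nb]
  rw [h1, sum_degrees_eq_twice_card_edges, ← coe_edgeFinset, Set.ncard_coe_finset]

end Counting

end Pool.Agent.Helper810.Grid
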