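import Mathlib
import Pool.Agent.Helper810_Grid.Basic

/-!
A graph in which any two vertices have at least `t ^ 2 - 2` common neighbours contains the
`t × t` grid as a subgraph.
-/

set_option autoImplicit false

namespace Pool.Agent.Helper810.Grid

open SimpleGraph Finset Classical

/-- a map which is injective on `[0, n)` and realises the adjacencies of the first `n` vertices of
the grid in row-major order -/
def Good {V : Type} (G : SimpleGraph V) (t n : ℕ) (f : ℕ → V) : Prop :=
  (∀ i < n, ∀ j < n, f i = f j → i = j) ∧
  (∀ i < n, i % t ≠ 0 → G.Adj (f (i - 1)) (f i)) ∧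
  ∀ i < n, t ≤ i → G.Adj (f (i - t)) (f i)

lemma good_minor {V : Type} {G : SimpleGraph V} {t : ℕ} {f : ℕ → V}
    (h : Good G t (t * t) f) : IsMinor (grid t) G := by
  obtain ⟨h1, h2, h3⟩ := h
  have hlt : ∀ x : Fin t × Fin t, x.1.val * t + x.2.val < t * t := by
    rintro ⟨a, b⟩
    have ha := a.2
    have hb := b.2
    dsimp only
    calc a.val * t + b.val < a.val * t + t := by omega
      _ = (a.val + 1) * t := by ring
      _ ≤ t * t := Nat.mul_le_mul_right _ ha
  refine minor_sub (fun x : Fin t × Fin t => f (x.1.val * t + x.2.val)) ?_ ?_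
  · intro x y hxy
    have h4 := h1 _ (hlt x) _ (hlt y) hxy
    obtain ⟨⟨a, ha⟩, ⟨b, hb⟩⟩ := x
    obtain ⟨⟨a', ha'⟩, ⟨b', hb'⟩⟩ := y
    dsimp only at h4
    have h5 : a = a' := by
      have e1 : (a * t + b) / t = a := by
        rw [Nat.add_comm, Nat.add_mul_div_right _ _ (by omega), Nat.div_eq_of_lt hb, Nat.zero_add]
      have e2 : (a' * t + b') / t = a' := by
        rw [Nat.add_comm, Nat.add_mul_div_right _ _ (by omega), Nat.div_eq_of_lt hb', Nat.zero_add]
      rw [← e1, ← e2, h4]
    subst h5
    have h6 : b = b' := by omega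
    subst h6
    rfl
  · -- the adjacencies
    have key : ∀ x y : Fin t × Fin t, ((x.1.val + 1 = y.1.val ∧ x.2 = y.2) ∨
        (x.2.val + 1 = y.2.val ∧ x.1 = y.1)) →
        G.Adj (f (x.1.val * t + x.2.val)) (f (y.1.val * t + y.2.val)) := by
      rintro ⟨⟨a, ha⟩, ⟨b, hb⟩⟩ ⟨⟨a', ha'⟩, ⟨b', hb'⟩⟩ hxy
      have hy := hlt (⟨a', ha'⟩, ⟨b', hb'⟩)
      simp only [Fin.mk.injEq] at hxy hy ⊢
      rcases hxy with ⟨e1, e2⟩ | ⟨e1, e2⟩
      · subst e1; subst e2
        have e3 : (a + 1) * t + b = a * t + b + t := by ring
        have := h3 ((a + 1) * t + b) hy (by rw [e3]; omega)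
        rw [e3, Nat.add_sub_cancel] at this
        rw [e3]
        exact this
      · subst e1; subst e2
        have e3 : (a * t + (b + 1)) % t = b + 1 := by
          rw [Nat.add_comm, Nat.add_mul_mod_self_right, Nat.mod_eq_of_lt hb']
        have := h2 (a * t + (b + 1)) hy (by rw [e3]; omega)
        have e4 : a * t + (b + 1) - 1 = a * t + b := by omega
        rw [e4] at this
        exact this
    intro x y hxy
    rw [grid, boxProd_adj] at hxy
    rcases hxy with ⟨hxy, e⟩ | ⟨hxy, e⟩
    · rw [pathGraph_adj] at hxy
      rcases hxy with hxy | hxy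
      · exact key x y (Or.inl ⟨hxy, e⟩)
      · exact (key y x (Or.inl ⟨hxy, e.symm⟩)).symm
    · rw [pathGraph_adj] at hxy
      rcases hxy with hxy | hxy
      · exact key x y (Or.inr ⟨hxy, e⟩)
      · exact (key y x (Or.inr ⟨hxy, e.symm⟩)).symm

/-- one step of the greedy embedding: if `n + 1` vertices are to be used and the parents lie in
`{a, b}` then a new common neighbour of `a` and `b` can be found -/
lemma good_extend {V : Type} {G : SimpleGraph V} {t n : ℕ} (ht : 2 ≤ t) {f : ℕ → V}
    (h : Good G t n f) (x : V) (hx : ∀ i < n, f i ≠ x)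
    (h1 : n % t ≠ 0 → G.Adj (f (n - 1)) x) (h2 : t ≤ n → G.Adj (f (n - t)) x) :
    Good G t (n + 1) (fun i => if i = n then x else f i) := by
  obtain ⟨g1, g2, g3⟩ := h
  refine ⟨?_, ?_, ?_⟩
  · intro i hi j hj hij
    dsimp only at hij
    by_cases hin : i = n
    · by_cases hjn : j = n
      · omega
      · rw [if_pos hin, if_neg hjn] at hij
        exact absurd hij.symm (hx j (by omega))
    · by_cases hjn : j = n
      · rw [if_neg hin, if_pos hjn] at hij
        exact absurd hij (hx i (by omega))
      · rw [if_neg hin, if_neg hjn] at hij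
        exact g1 i (by omega) j (by omega) hij
  · intro i hi hit
    dsimp only
    have hi0 : i ≠ 0 := by
      rintro rfl
      exact hit (Nat.zero_mod t)
    by_cases hin : i = n
    · subst hin
      rw [if_pos rfl, if_neg (by omega)]
      exact h1 hit
    · rw [if_neg hin, if_neg (by omega)]
      exact g2 i (by omega) hit
  · intro i hi hit
    dsimp only
    by_cases hin : i = n
    · subst hin
      rw [if_pos rfl, if_neg (by omega)]
      exact h2 hit
    · rw [if_neg hin, if_neg (by omega)]
      exact g3 i (by omega) hit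

/-- **The greedy embedding.** -/
theorem greedy {V : Type} [Fintype V] {G : SimpleGraph V} {t : ℕ} (ht : 2 ≤ t)
    (hV : 2 ≤ Fintype.card V)
    (hc : ∀ x y : V, x ≠ y → t * t - 2 ≤ (cn G x y).card) : IsMinor (grid t) G := by
  have key : ∀ n ≤ t * t, ∃ f : ℕ → V, Good G t n f := by
    intro n
    induction n with
    | zero =>
      intro _
      obtain ⟨v⟩ : Nonempty V := Fintype.card_pos_iff.1 (by omega)
      exact ⟨fun _ => v, by intro i hi; omega, by intro i hi; omega, by intro i hi; omega⟩
    | succ n ih =>
      intro hn
      obtain ⟨f, hf⟩ := ih (by omega)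
      -- a new vertex adjacent to two given ones
      have hstep : ∀ a b : V, a ≠ b → (∃ U : Finset V, U.card + 2 ≤ n + 1 ∧ (2 ≤ n → U.card + 2 ≤ n)
          ∧ ∀ i < n, f i ∈ insert a (insert b U)) →
          ∃ x, (∀ i < n, f i ≠ x) ∧ G.Adj a x ∧ G.Adj b x := by
        rintro a b hab ⟨U, hU, hU2, hfU⟩
        have h4 : 4 ≤ t * t := Nat.mul_le_mul ht ht
        have hlt : U.card < (cn G a b).card := by
          have := hc a b hab
          by_cases h2 : 2 ≤ n
          · have := hU2 h2
            omega
          · omega
        obtain ⟨x, hx, hxU⟩ := exists_mem_notMem_of_card_lt_card hlt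
        rw [mem_cn] at hx
        refine ⟨x, ?_, hx.1, hx.2⟩
        rintro i hi rfl
        have := hfU i hi
        rw [mem_insert, mem_insert] at this
        rcases this with e | e | e
        · exact hx.1.ne e.symm
        · exact hx.2.ne e.symm
        · exact hxU e
      -- the image of `f`
      have himg : ∀ i j, i < n → j < n → i ≠ j → ∃ U : Finset V, U.card + 2 ≤ n + 1 ∧
          (2 ≤ n → U.card + 2 ≤ n) ∧ ∀ l < n, f l ∈ insert (f i) (insert (f j) U) := by
        intro i j hi hj hij
        refine ⟨(((range n).erase i).erase j).image f, ?_, ?_, ?_⟩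
        · have h1 := card_image_le (s := ((range n).erase i).erase j) (f := f)
          rw [card_erase_of_mem (mem_erase.2 ⟨hij.symm, mem_range.2 hj⟩),
            card_erase_of_mem (mem_range.2 hi), card_range] at h1
          omega
        · intro _
          have h1 := card_image_le (s := ((range n).erase i).erase j) (f := f)
          rw [card_erase_of_mem (mem_erase.2 ⟨hij.symm, mem_range.2 hj⟩),
            card_erase_of_mem (mem_range.2 hi), card_range] at h1
          omega
        · intro l hl
          rw [mem_insert, mem_insert]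
          by_cases h1 : l = i
          · left; rw [h1]
          by_cases h2 : l = j
          · right; left; rw [h2]
          right; right
          exact mem_image_of_mem _ (mem_erase.2 ⟨h2, mem_erase.2 ⟨h1, mem_range.2 hl⟩⟩)
      rcases Nat.lt_or_ge n 2 with hn2 | hn2
      · rcases Nat.eq_zero_or_pos n with rfl | hn0
        · obtain ⟨v⟩ : Nonempty V := Fintype.card_pos_iff.1 (by omega)
          exact ⟨_, good_extend ht hf v (by intro i hi; omega) (by intro h; simp at h)
            (by intro h; omega)⟩
        · have : n = 1 := by omega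
          subst this
          obtain ⟨b, hb⟩ : ∃ b, b ≠ f 0 := by
            have : Nontrivial V := Fintype.one_lt_card_iff_nontrivial.1 (by omega)
            exact exists_ne _
          obtain ⟨x, hx1, hx2, hx3⟩ := hstep (f 0) b hb.symm ⟨∅, by simp, by omega, by
            intro i hi
            have : i = 0 := by omega
            subst this
            exact mem_insert_self _ _⟩
          exact ⟨_, good_extend ht hf x hx1 (fun _ => hx2) (by intro h; omega)⟩
      · -- at least two vertices are used
        by_cases htn : t ≤ n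
        · have hne : f (n - 1) ≠ f (n - t) := by
            intro h
            have := hf.1 (n - 1) (by omega) (n - t) (by omega) h
            omega
          obtain ⟨x, hx1, hx2, hx3⟩ := hstep _ _ hne
            (himg (n - 1) (n - t) (by omega) (by omega) (by omega))
          exact ⟨_, good_extend ht hf x hx1 (fun _ => hx2) (fun _ => hx3)⟩
        · have hne : f (n - 1) ≠ f 0 := by
            intro h
            have := hf.1 (n - 1) (by omega) 0 (by omega) h
            omega
          obtain ⟨x, hx1, hx2, hx3⟩ := hstep _ _ hne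
            (himg (n - 1) 0 (by omega) (by omega) (by omega))
          exact ⟨_, good_extend ht hf x hx1 (fun _ => hx2) (fun h => absurd h htn)⟩
  obtain ⟨f, hf⟩ := key (t * t) le_rfl
  exact good_minor hf

end Pool.Agent.Helper810.Grid
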