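import Mathlib
import Pool.Agent.Helper810_Grid.Greedy

/-!
The local step: a graph without the `t × t` grid as a minor has a vertex or an edge whose deletion
or contraction loses few edges.
-/

set_option autoImplicit false

namespace Pool.Agent.Helper810.Grid

open SimpleGraph Finset Classical

/-- deleting a vertex -/
lemma pr_delete_vertex {V : Type} [Fintype V] (G : SimpleGraph V) (v : V) :
    pr G ≤ pr (G.induce {x | x ≠ v}) + 2 * (nb G v).card := by
  set P := (univ : Finset (V × V)).filter (fun x => G.Adj x.1 x.2) with hP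
  set B : Finset (V × V) := (nb G v).image (fun b => (v, b)) ∪ (nb G v).image (fun b => (b, v))
    with hB
  have hBc : B.card ≤ 2 * (nb G v).card := by
    have h2 := card_union_le ((nb G v).image (fun b => (v, b))) ((nb G v).image (fun b => (b, v)))
    have h3 := card_image_le (s := nb G v) (f := fun b => (v, b))
    have h4 := card_image_le (s := nb G v) (f := fun b => (b, v))
    rw [hB]
    omega
  have h1 : (P \ B).card ≤ pr (G.induce {x | x ≠ v}) := by
    unfold pr
    have h2 : P \ B ⊆ ((univ : Finset ({x | x ≠ v} × {x | x ≠ v})).filter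
        (fun x => (G.induce {x | x ≠ v}).Adj x.1 x.2)).image (fun x => (x.1.1, x.2.1)) := by
      rintro ⟨a, b⟩ hab
      rw [mem_sdiff, hP, mem_filter, hB, mem_union, not_or, mem_image, mem_image] at hab
      obtain ⟨⟨-, hab⟩, hn1, hn2⟩ := hab
      dsimp only at hab
      have ha : a ≠ v := by
        rintro rfl
        exact hn1 ⟨b, mem_nb.2 hab, rfl⟩
      have hb : b ≠ v := by
        rintro rfl
        exact hn2 ⟨a, mem_nb.2 hab.symm, rfl⟩
      rw [mem_image]
      refine ⟨(⟨a, ha⟩, ⟨b, hb⟩), ?_, rfl⟩
      rw [mem_filter]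
      exact ⟨mem_univ _, hab⟩
    exact (card_le_card h2).trans card_image_le
  have h2 : P.card ≤ (P \ B).card + B.card := card_le_card_sdiff_add_card
  have h3 : pr G = P.card := rfl
  omega

lemma card_delete {V : Type} [Fintype V] (x : V) :
    Fintype.card {y : V | y ≠ x} + 1 = Fintype.card V := by
  have h3 : Fintype.card {y : V | y ≠ x} = Fintype.card V - 1 := by
    have := Fintype.card_subtype_compl (fun y : V => y = x)
    simp only [Fintype.card_unique] at this
    rw [← this]
    exact Fintype.card_congr (Equiv.refl _)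
  have : 0 < Fintype.card V := Fintype.card_pos_iff.2 ⟨x⟩
  omega

lemma card_delete' {V : Type} [Fintype V] (x : V) :
    Fintype.card {y : V // y ≠ x} + 1 = Fintype.card V := card_delete x

/-- degrees inside an induced subgraph -/
lemma card_nb_induce {V : Type} [Fintype V] (G : SimpleGraph V) (S : Finset V) (a : {y : V // y ∈ S}) :
    (nb (G.induce {y | y ∈ S}) a).card = (nb G a ∩ S).card := by
  rw [← card_image_of_injective (nb (G.induce {y | y ∈ S}) a) Subtype.val_injective]
  congr 1
  ext y
  simp only [mem_image, mem_nb, mem_inter]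
  constructor
  · rintro ⟨b, hb, rfl⟩
    exact ⟨hb, b.2⟩
  · rintro ⟨h1, h2⟩
    exact ⟨⟨y, h2⟩, h1, rfl⟩

lemma card_cn_induce {V : Type} [Fintype V] (G : SimpleGraph V) (S : Set V) [Fintype S]
    (a b : S) (F : Finset V) (hF : ∀ y, G.Adj a y → G.Adj b y → (y ∈ F ↔ y ∈ S)) :
    (cn (G.induce S) a b).card = (cn G a b ∩ F).card := by
  rw [← card_image_of_injective (cn (G.induce S) a b) Subtype.val_injective]
  congr 1
  ext y
  simp only [mem_image, mem_cn, mem_inter]
  constructor
  · rintro ⟨b, ⟨hb, hb'⟩, rfl⟩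
    exact ⟨⟨hb, hb'⟩, (hF b hb hb').2 b.2⟩
  · rintro ⟨⟨h1, h3⟩, h2⟩
    exact ⟨⟨y, (hF y h1 h3).1 h2⟩, ⟨h1, h3⟩, rfl⟩

lemma induce_minor {V : Type} (G : SimpleGraph V) (S : Set V) : IsMinor (G.induce S) G :=
  minor_sub Subtype.val Subtype.val_injective (fun _ _ h => h)

/-- a vertex of minimum degree -/
lemma exists_min_degree {V : Type} [Fintype V] [Nonempty V] (G : SimpleGraph V) :
    ∃ v, (∀ w, (nb G v).card ≤ (nb G w).card) ∧ (nb G v).card * Fintype.card V ≤ pr G := by
  obtain ⟨v, -, hv⟩ := exists_min_image (univ : Finset V) (fun w => (nb G w).card)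
    ⟨Classical.arbitrary V, mem_univ _⟩
  refine ⟨v, fun w => hv w (mem_univ _), ?_⟩
  rw [pr_eq]
  calc (nb G v).card * Fintype.card V = ∑ _x : V, (nb G v).card := by
        rw [sum_const, card_univ, smul_eq_mul, mul_comm]
    _ ≤ _ := sum_le_sum (fun x _ => hv x (mem_univ _))

/-- **The local step.** -/
theorem local_step {V : Type} [Fintype V] [Nonempty V] (G : SimpleGraph V) {t : ℕ} (ht : 2 ≤ t) :
    IsMinor (grid t) G ∨ ∃ (W : Type) (_ : Fintype W) (H : SimpleGraph W), IsMinor H G ∧
      Fintype.card W + 1 = Fintype.card V ∧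
      (pr G : ℝ) ≤ pr H + ((pr G : ℝ) / Fintype.card V + ((t * t - 1 : ℕ) : ℝ)) := by
  have hV : 0 < Fintype.card V := Fintype.card_pos
  have hV' : (0 : ℝ) < Fintype.card V := by exact_mod_cast hV
  have h4 : 4 ≤ t * t := Nat.mul_le_mul ht ht
  obtain ⟨v, hv, hd⟩ := exists_min_degree G
  have hd' : ((nb G v).card : ℝ) ≤ (pr G : ℝ) / Fintype.card V := by
    rw [le_div_iff₀ hV']
    exact_mod_cast hd
  by_cases hk : (nb G v).card ≤ t * t - 1
  · -- delete the vertex
    right
    refine ⟨{x : V | x ≠ v}, inferInstance, G.induce {x | x ≠ v}, induce_minor _ _,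
      card_delete v, ?_⟩
    have h1 := pr_delete_vertex G v
    have h1' : (pr G : ℝ) ≤ pr (G.induce {x | x ≠ v}) + 2 * (nb G v).card := by exact_mod_cast h1
    have hk' : ((nb G v).card : ℝ) ≤ ((t * t - 1 : ℕ) : ℝ) := by exact_mod_cast hk
    linarith
  · by_cases hc : ∀ y ∈ nb G v, ∀ z ∈ nb G v, y ≠ z → t * t - 2 ≤ (cn G y z ∩ nb G v).card
    · -- embed the grid
      left
      refine minor_trans (greedy ht (G := G.induce {y | y ∈ nb G v}) ?_ ?_) (induce_minor _ _)
      · have h1 : Fintype.card ({y | y ∈ nb G v} : Set V) = (nb G v).card := by simp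
        rw [h1]
        omega
      · intro x y hxy
        rw [card_cn_induce G _ x y (nb G v) (fun _ _ _ => Iff.rfl)]
        exact hc x x.2 y y.2 (fun h => hxy (Subtype.ext h))
    · -- contract an edge
      right
      push Not at hc
      obtain ⟨y, hy, z, hz, hyz, hc⟩ := hc
      have hsum : (nb G v ∩ nb G y).card + (nb G v ∩ nb G z).card ≤
          (nb G v).card + (t * t - 3) := by
        have h1 := card_union_add_card_inter (nb G v ∩ nb G y) (nb G v ∩ nb G z)
        have h2 : (nb G v ∩ nb G y) ∩ (nb G v ∩ nb G z) = cn G y z ∩ nb G v := by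
          ext a
          simp only [mem_inter, mem_cn, mem_nb]
          tauto
        have h3 : ((nb G v ∩ nb G y) ∪ (nb G v ∩ nb G z)).card ≤ (nb G v).card :=
          card_le_card (union_subset inter_subset_left inter_subset_left)
        rw [h2] at h1
        omega
      have hex : ∃ w ∈ nb G v, 2 * (1 + (nb G v ∩ nb G w).card) ≤
          (nb G v).card + (t * t - 1) := by
        by_cases h : (nb G v ∩ nb G y).card ≤ (nb G v ∩ nb G z).card
        · exact ⟨y, hy, by omega⟩
        · exact ⟨z, hz, by omega⟩
      obtain ⟨w, hw, hle⟩ := hex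
      have hadj : G.Adj v w := mem_nb.1 hw
      refine ⟨{x : V // x ≠ w}, inferInstance, quot G (cmap v w hadj.ne), contract_minor hadj,
        card_delete' w, ?_⟩
      have h1 := pr_contract hadj
      have h1' : (pr G : ℝ) ≤ pr (quot G (cmap v w hadj.ne)) + 2 * (1 + (nb G v ∩ nb G w).card) := by
        exact_mod_cast h1
      have h2' : 2 * (1 + ((nb G v ∩ nb G w).card : ℝ)) ≤ (nb G v).card + ((t * t - 1 : ℕ) : ℝ) := by
        exact_mod_cast hle
      linarith

/-- **The induction**: a small dense graph has the grid as a minor. -/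
theorem dense_minor {t : ℕ} (ht : 2 ≤ t) : ∀ (N : ℕ) (V : Type) [Fintype V] (G : SimpleGraph V),
    Fintype.card V = N → t * t ≤ N →
    (N : ℝ) * (((t * t - 1 : ℕ) : ℝ) * (1 + Real.log (((N - 1 : ℕ) : ℝ) / ((t * t - 1 : ℕ) : ℝ))))
      < pr G → IsMinor (grid t) G := by
  have h4 : 4 ≤ t * t := Nat.mul_le_mul ht ht
  intro N
  induction N with
  | zero => intro V _ G _ h; omega
  | succ N ih =>
    intro V _ G hV hN hpr
    have hne : Nonempty V := Fintype.card_pos_iff.1 (by omega)
    have hk0 : (0 : ℝ) < ((t * t - 1 : ℕ) : ℝ) := by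
      have : 0 < t * t - 1 := by omega
      exact_mod_cast this
    have hub : pr G ≤ (N + 1) * N := by
      rw [pr_eq]
      calc ∑ v, (nb G v).card ≤ ∑ _v : V, N := by
            apply sum_le_sum
            intro v _
            have h1 : (nb G v).card < Fintype.card V := by
              apply card_lt_univ_of_notMem (x := v)
              rw [mem_nb]
              exact G.loopless.irrefl v
            omega
        _ = (N + 1) * N := by rw [sum_const, card_univ, hV, smul_eq_mul]
    rcases Nat.eq_or_lt_of_le hN with hbase | hlt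
    · -- `N + 1 = t * t`
      exfalso
      have hNk : t * t - 1 = N := by omega
      rw [hNk] at hpr hk0
      have h1 : ((N + 1 - 1 : ℕ) : ℝ) = N := by simp
      rw [h1, div_self hk0.ne', Real.log_one] at hpr
      have h2 : (pr G : ℝ) ≤ ((N + 1 : ℕ) : ℝ) * N := by exact_mod_cast hub
      have h3 : ((N + 1 : ℕ) : ℝ) * ((N : ℝ) * (1 + 0)) = ((N + 1 : ℕ) : ℝ) * N := by ring
      rw [h3] at hpr
      exact absurd h2 (not_le.2 hpr)
    · rcases local_step G ht with h | ⟨W, hW, H, hH, hcard, hle⟩
      · exact h
      · refine minor_trans (ih W H (by omega) (by omega) ?_) hH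
        set k : ℝ := ((t * t - 1 : ℕ) : ℝ) with hk
        have hN1 : ((N + 1 - 1 : ℕ) : ℝ) = N := by simp
        rw [hN1] at hpr
        rw [hV] at hle
        have hNr : (4 : ℝ) ≤ N := by
          have : 4 ≤ N := by omega
          exact_mod_cast this
        have hNm : ((N - 1 : ℕ) : ℝ) = (N : ℝ) - 1 := by
          rw [Nat.cast_sub (by omega)]; simp
        rw [hNm]
        have hNc : ((N + 1 : ℕ) : ℝ) = (N : ℝ) + 1 := by push_cast; ring
        rw [hNc] at hpr hle
        -- the average degree `d` satisfies `d > k (1 + log (N / k))`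
        set d : ℝ := (pr G : ℝ) / ((N : ℝ) + 1) with hd
        have hd1 : (pr G : ℝ) = d * ((N : ℝ) + 1) := by
          rw [hd]; field_simp
        have hd2 : k * (1 + Real.log ((N : ℝ) / k)) < d := by
          rw [hd1] at hpr
          have : (0 : ℝ) < (N : ℝ) + 1 := by linarith
          nlinarith
        have hlog : Real.log (((N : ℝ) - 1) / k) ≤ Real.log ((N : ℝ) / k) - 1 / N := by
          rw [Real.log_div (by linarith) hk0.ne', Real.log_div (by linarith) hk0.ne']
          have h5 : Real.log (((N : ℝ) - 1) / N) ≤ ((N : ℝ) - 1) / N - 1 :=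
            Real.log_le_sub_one_of_pos (by apply div_pos <;> linarith)
          rw [Real.log_div (by linarith) (by linarith)] at h5
          have h6 : ((N : ℝ) - 1) / N - 1 = - (1 / N) := by
            field_simp
            ring
          rw [h6] at h5
          linarith
        have h7 : (N : ℝ) * (k * (1 + Real.log (((N : ℝ) - 1) / k))) ≤
            (N : ℝ) * (k * (1 + Real.log ((N : ℝ) / k))) - k := by
          have h8 : (N : ℝ) * (k * (1 + Real.log (((N : ℝ) - 1) / k))) ≤
              (N : ℝ) * (k * (1 + (Real.log ((N : ℝ) / k) - 1 / N))) := by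
            apply mul_le_mul_of_nonneg_left _ (by linarith)
            apply mul_le_mul_of_nonneg_left _ hk0.le
            linarith
          have h9 : (N : ℝ) * (k * (1 + (Real.log ((N : ℝ) / k) - 1 / N))) =
              (N : ℝ) * (k * (1 + Real.log ((N : ℝ) / k))) - k := by
            field_simp
            ring
          linarith
        have h10 : (N : ℝ) * (k * (1 + Real.log ((N : ℝ) / k))) < (N : ℝ) * d :=
          mul_lt_mul_of_pos_left hd2 (by linarith)
        have h11 : (pr G : ℝ) - (d + k) ≤ pr H := by linarith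
        have h12 : (pr G : ℝ) - (d + k) = (N : ℝ) * d - k := by rw [hd1]; ring
        linarith

end Pool.Agent.Helper810.Grid
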