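import Mathlib
import Pool.Agent.Helper810_Grid.Step

/-!
The exchange argument: an embedding of the first `k` vertices of the grid (in row-major order) can
be extended unless every unused vertex misses many of the used ones.
-/

set_option autoImplicit false

namespace Pool.Agent.Helper810.Grid

open SimpleGraph Finset Classical

/-- the indices of the used vertices which are not adjacent to `z` -/
noncomputable def missIdx {V : Type} (G : SimpleGraph V) (f : ℕ → V) (k : ℕ) (z : V) : Finset ℕ :=
  (range k).filter (fun i => ¬ G.Adj z (f i))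

lemma mem_missIdx {V : Type} {G : SimpleGraph V} {f : ℕ → V} {k i : ℕ} {z : V} :
    i ∈ missIdx G f k z ↔ i < k ∧ ¬ G.Adj z (f i) := by
  simp [missIdx]

/-- the indices adjacent to an index of `S` in the grid (and possibly a few more) -/
def nbIdx (t : ℕ) (S : Finset ℕ) : Finset ℕ :=
  (S.image (fun i => i + 1) ∪ S.image (fun i => i - 1)) ∪
    (S.image (fun i => i + t) ∪ S.image (fun i => i - t))

lemma card_nbIdx (t : ℕ) (S : Finset ℕ) : (nbIdx t S).card ≤ 4 * S.card := by
  unfold nbIdx
  have h1 := card_union_le (S.image (fun i => i + 1) ∪ S.image (fun i => i - 1))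
    (S.image (fun i => i + t) ∪ S.image (fun i => i - t))
  have h2 := card_union_le (S.image (fun i => i + 1)) (S.image (fun i => i - 1))
  have h3 := card_union_le (S.image (fun i => i + t)) (S.image (fun i => i - t))
  have h4 := card_image_le (s := S) (f := fun i => i + 1)
  have h5 := card_image_le (s := S) (f := fun i => i - 1)
  have h6 := card_image_le (s := S) (f := fun i => i + t)
  have h7 := card_image_le (s := S) (f := fun i => i - t)
  omega

lemma mem_nbIdx {t : ℕ} {S : Finset ℕ} {s : ℕ} (hs : s ∈ S) :
    s + 1 ∈ nbIdx t S ∧ s - 1 ∈ nbIdx t S ∧ s + t ∈ nbIdx t S ∧ s - t ∈ nbIdx t S := by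
  unfold nbIdx
  simp only [mem_union, mem_image]
  exact ⟨Or.inl (Or.inl ⟨s, hs, rfl⟩), Or.inl (Or.inr ⟨s, hs, rfl⟩),
    Or.inr (Or.inl ⟨s, hs, rfl⟩), Or.inr (Or.inr ⟨s, hs, rfl⟩)⟩

/-- **The exchange.** -/
lemma exchange {V : Type} [Fintype V] {G : SimpleGraph V} {t k : ℕ} (ht : 2 ≤ t) {f : ℕ → V}
    (h : Good G t k f) {a b : ℕ}
    (h1 : k % t ≠ 0 → k - 1 = a ∨ k - 1 = b) (h2 : t ≤ k → k - t = a ∨ k - t = b)
    (hC : ∀ x ∈ cn G (f a) (f b), ∃ i < k, f i = x) (z : V) (hz : ∀ i < k, f i ≠ z)
    (hcard : 4 * (missIdx G f k z).card < (cn G (f a) (f b)).card) :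
    ∃ f', Good G t (k + 1) f' := by
  obtain ⟨g1, g2, g3⟩ := h
  set C' := (range k).filter (fun i => f i ∈ cn G (f a) (f b)) with hC'
  have hle : (cn G (f a) (f b)).card ≤ C'.card := by
    have : cn G (f a) (f b) ⊆ C'.image f := by
      intro x hx
      obtain ⟨i, hi, rfl⟩ := hC x hx
      exact mem_image_of_mem _ (mem_filter.2 ⟨mem_range.2 hi, hx⟩)
    exact (card_le_card this).trans card_image_le
  have hlt : (nbIdx t (missIdx G f k z)).card < C'.card :=
    lt_of_le_of_lt (card_nbIdx t _) (lt_of_lt_of_le hcard hle)
  obtain ⟨i, hiC, hin⟩ := exists_mem_notMem_of_card_lt_card hlt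
  rw [hC', mem_filter, mem_range, mem_cn] at hiC
  obtain ⟨hik, hia, hib⟩ := hiC
  have hiA : i ≠ a := by
    rintro rfl
    exact G.loopless.irrefl _ hia
  have hiB : i ≠ b := by
    rintro rfl
    exact G.loopless.irrefl _ hib
  -- all grid neighbours of `i` are adjacent to `z`
  have hnb : ∀ j < k, (i = j + 1 ∨ i = j - 1 ∨ i = j + t ∨ i = j - t) → G.Adj z (f j) := by
    intro j hj hij
    by_contra hcon
    have := mem_nbIdx (t := t) (mem_missIdx.2 ⟨hj, hcon⟩)
    rcases hij with e | e | e | e
    · exact hin (e ▸ this.1)
    · exact hin (e ▸ this.2.1)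
    · exact hin (e ▸ this.2.2.1)
    · exact hin (e ▸ this.2.2.2)
  refine ⟨fun j => if j = k then f i else if j = i then z else f j, ?_, ?_, ?_⟩
  · -- injectivity
    intro j hj j' hj' hjj
    dsimp only at hjj
    by_cases e1 : j = k
    · by_cases e2 : j' = k
      · omega
      · rw [if_pos e1, if_neg e2] at hjj
        by_cases e3 : j' = i
        · rw [if_pos e3] at hjj
          exact absurd hjj (hz i hik)
        · rw [if_neg e3] at hjj
          have := g1 i hik j' (by omega) hjj
          omega
    · by_cases e2 : j' = k
      · rw [if_neg e1, if_pos e2] at hjj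
        by_cases e3 : j = i
        · rw [if_pos e3] at hjj
          exact absurd hjj.symm (hz i hik)
        · rw [if_neg e3] at hjj
          have := g1 j (by omega) i hik hjj
          omega
      · rw [if_neg e1, if_neg e2] at hjj
        by_cases e3 : j = i
        · by_cases e4 : j' = i
          · omega
          · rw [if_pos e3, if_neg e4] at hjj
            exact absurd hjj.symm (hz j' (by omega))
        · by_cases e4 : j' = i
          · rw [if_neg e3, if_pos e4] at hjj
            exact absurd hjj (hz j (by omega))
          · rw [if_neg e3, if_neg e4] at hjj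
            exact g1 j (by omega) j' (by omega) hjj
  · -- horizontal edges
    intro j hj hjt
    dsimp only
    have hj0 : j ≠ 0 := by
      rintro rfl
      exact hjt (Nat.zero_mod t)
    by_cases e1 : j = k
    · subst e1
      rw [if_pos rfl, if_neg (by omega)]
      have hab := h1 hjt
      rw [if_neg (by omega)]
      rcases hab with e | e
      · rw [e]; exact hia
      · rw [e]; exact hib
    · rw [if_neg e1, if_neg (by omega : j - 1 ≠ k)]
      by_cases e2 : j = i
      · rw [if_pos e2, if_neg (by omega)]
        exact (hnb (j - 1) (by omega) (Or.inl (by omega))).symm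
      · rw [if_neg e2]
        by_cases e3 : j - 1 = i
        · rw [if_pos e3]
          exact hnb j (by omega) (Or.inr (Or.inl (by omega)))
        · rw [if_neg e3]
          exact g2 j (by omega) hjt
  · -- vertical edges
    intro j hj hjt
    dsimp only
    by_cases e1 : j = k
    · subst e1
      rw [if_pos rfl, if_neg (by omega)]
      have hab := h2 hjt
      rw [if_neg (by omega)]
      rcases hab with e | e
      · rw [e]; exact hia
      · rw [e]; exact hib
    · rw [if_neg e1, if_neg (by omega : j - t ≠ k)]
      by_cases e2 : j = i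
      · rw [if_pos e2, if_neg (by omega)]
        exact (hnb (j - t) (by omega) (Or.inr (Or.inr (Or.inl (by omega))))).symm
      · rw [if_neg e2]
        by_cases e3 : j - t = i
        · rw [if_pos e3]
          exact hnb j (by omega) (Or.inr (Or.inr (Or.inr (by omega))))
        · rw [if_neg e3]
          exact g3 j (by omega) hjt

/-- common neighbours -/
lemma cn_ge {V : Type} [Fintype V] {G : SimpleGraph V} {q : ℕ}
    (hq : ∀ v, Fintype.card V ≤ (nb G v).card + q) (x y : V) :
    Fintype.card V ≤ (cn G x y).card + 2 * q := by
  have h1 := card_union_add_card_inter (nb G x) (nb G y)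
  have h2 : nb G x ∩ nb G y = cn G x y := by
    ext a
    simp only [mem_inter, mem_cn, mem_nb]
  have h3 : (nb G x ∪ nb G y).card ≤ Fintype.card V := card_le_univ _
  rw [h2] at h1
  have h4 := hq x
  have h5 := hq y
  omega

/-- **Phase 1**: either the first `K` vertices of the grid can be embedded, or there is a blocked
partial embedding -/
theorem phase1 {V : Type} [Fintype V] {G : SimpleGraph V} {t q m : ℕ} (ht : 2 ≤ t)
    (hq : ∀ v, Fintype.card V ≤ (nb G v).card + q) (hm : 1 ≤ m)
    (hmq : m + 2 * q ≤ Fintype.card V) (hV : 2 ≤ Fintype.card V) :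
    ∀ K, (∃ f : ℕ → V, Good G t K f) ∨
      ∃ (k : ℕ) (f : ℕ → V), 2 ≤ k ∧ k < K ∧ Good G t k f ∧ m + 2 ≤ k ∧
        ∀ z, (∀ i < k, f i ≠ z) → m ≤ 4 * (missIdx G f k z).card := by
  have hcn : ∀ x y : V, m ≤ (cn G x y).card := by
    intro x y
    have := cn_ge hq x y
    omega
  intro K
  induction K with
  | zero =>
    obtain ⟨v⟩ : Nonempty V := Fintype.card_pos_iff.1 (by omega)
    exact Or.inl ⟨fun _ => v, by intro i hi; omega, by intro i hi; omega, by intro i hi; omega⟩
  | succ k ih =>
    rcases ih with ⟨f, hf⟩ | ⟨k', f, h2, hk, hrest⟩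
    swap
    · exact Or.inr ⟨k', f, h2, by omega, hrest⟩
    rcases Nat.lt_or_ge k 2 with hk2 | hk2
    · left
      rcases Nat.eq_zero_or_pos k with rfl | hk0
      · obtain ⟨v⟩ : Nonempty V := Fintype.card_pos_iff.1 (by omega)
        exact ⟨_, good_extend ht hf v (by intro i hi; omega) (by intro h; simp at h)
          (by intro h; omega)⟩
      · have : k = 1 := by omega
        subst this
        obtain ⟨x, hx⟩ : (cn G (f 0) (f 0)).Nonempty := by
          rw [← card_pos]
          have := hcn (f 0) (f 0)
          omega
        rw [mem_cn] at hx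
        refine ⟨_, good_extend ht hf x ?_ (fun _ => hx.1) (by intro h; omega)⟩
        intro i hi
        have : i = 0 := by omega
        subst this
        exact hx.1.ne
    · -- two indices containing the parents of `k`
      obtain ⟨a, b, ha, hb, hab, h1, h2⟩ : ∃ a b, a < k ∧ b < k ∧ a ≠ b ∧
          (k % t ≠ 0 → k - 1 = a ∨ k - 1 = b) ∧ (t ≤ k → k - t = a ∨ k - t = b) := by
        by_cases htk : t ≤ k
        · exact ⟨k - 1, k - t, by omega, by omega, by omega, fun _ => Or.inl rfl,
            fun _ => Or.inr rfl⟩
        · exact ⟨k - 1, 0, by omega, by omega, by omega, fun _ => Or.inl rfl,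
            fun h => absurd h htk⟩
      by_cases hC : ∀ x ∈ cn G (f a) (f b), ∃ i < k, f i = x
      · by_cases hz : ∃ z, (∀ i < k, f i ≠ z) ∧
            4 * (missIdx G f k z).card < (cn G (f a) (f b)).card
        · obtain ⟨z, hz1, hz2⟩ := hz
          exact Or.inl (exchange ht hf h1 h2 hC z hz1 hz2)
        · right
          push Not at hz
          refine ⟨k, f, hk2, Nat.lt_succ_self k, hf, ?_, ?_⟩
          · -- all common neighbours are used
            have hsub : cn G (f a) (f b) ⊆ (((range k).erase a).erase b).image f := by
              intro x hx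
              obtain ⟨i, hi, rfl⟩ := hC x hx
              rw [mem_cn] at hx
              refine mem_image_of_mem _ (mem_erase.2 ⟨?_, mem_erase.2 ⟨?_, mem_range.2 hi⟩⟩)
              · rintro rfl
                exact G.loopless.irrefl _ hx.2
              · rintro rfl
                exact G.loopless.irrefl _ hx.1
            have h3 := (card_le_card hsub).trans card_image_le
            rw [card_erase_of_mem (mem_erase.2 ⟨hab.symm, mem_range.2 hb⟩),
              card_erase_of_mem (mem_range.2 ha), card_range] at h3
            have := hcn (f a) (f b)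
            omega
          · intro z hz1
            exact (hcn (f a) (f b)).trans (hz z hz1)
      · left
        push Not at hC
        obtain ⟨x, hx, hxi⟩ := hC
        rw [mem_cn] at hx
        refine ⟨_, good_extend ht hf x hxi ?_ ?_⟩
        · intro h
          rcases h1 h with e | e
          · rw [e]; exact hx.1
          · rw [e]; exact hx.2
        · intro h
          rcases h2 h with e | e
          · rw [e]; exact hx.1
          · rw [e]; exact hx.2

end Pool.Agent.Helper810.Grid
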