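import Mathlib
import Pool.Agent.Helper810_Grid.Host1

/-!
Completing a blocked partial embedding to a minor model of the grid.
-/

set_option autoImplicit false

namespace Pool.Agent.Helper810.Grid

open SimpleGraph Finset Classical

/-- a minor model of the first `p` vertices of the grid -/
def Model {V : Type} (G : SimpleGraph V) (t p : ℕ) (B : ℕ → Finset V) : Prop :=
  (∀ i < p, (G.induce (B i : Set V)).Connected) ∧
  (∀ i < p, ∀ j < p, i ≠ j → Disjoint (B i) (B j)) ∧
  (∀ i < p, i % t ≠ 0 → ∃ u ∈ B (i - 1), ∃ v ∈ B i, G.Adj u v) ∧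
  ∀ i < p, t ≤ i → ∃ u ∈ B (i - t), ∃ v ∈ B i, G.Adj u v

lemma model_minor {V : Type} {G : SimpleGraph V} {t : ℕ} {B : ℕ → Finset V}
    (h : Model G t (t * t) B) : IsMinor (grid t) G := by
  obtain ⟨h0, h1, h2, h3⟩ := h
  have hlt : ∀ x : Fin t × Fin t, x.1.val * t + x.2.val < t * t := by
    rintro ⟨a, b⟩
    have ha := a.2
    have hb := b.2
    dsimp only
    calc a.val * t + b.val < a.val * t + t := by omega
      _ = (a.val + 1) * t := by ring
      _ ≤ t * t := Nat.mul_le_mul_right _ ha
  have hinj : ∀ x y : Fin t × Fin t, x.1.val * t + x.2.val = y.1.val * t + y.2.val → x = y := by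
    rintro ⟨⟨a, ha⟩, ⟨b, hb⟩⟩ ⟨⟨a', ha'⟩, ⟨b', hb'⟩⟩ h4
    dsimp only at h4
    have h5 : a = a' := by
      have e1 : (a * t + b) / t = a := by
        rw [Nat.add_comm, Nat.add_mul_div_right _ _ (by omega), Nat.div_eq_of_lt hb, Nat.zero_add]
      have e2 : (a' * t + b') / t = a' := by
        rw [Nat.add_comm, Nat.add_mul_div_right _ _ (by omega), Nat.div_eq_of_lt hb', Nat.zero_add]
      rw [← e1, ← e2, h4]
    subst h5
    have h6 : b = b' := by omega
    subst h6
    rfl
  have key : ∀ x y : Fin t × Fin t, ((x.1.val + 1 = y.1.val ∧ x.2 = y.2) ∨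
      (x.2.val + 1 = y.2.val ∧ x.1 = y.1)) →
      ∃ u ∈ B (x.1.val * t + x.2.val), ∃ v ∈ B (y.1.val * t + y.2.val), G.Adj u v := by
    rintro ⟨⟨a, ha⟩, ⟨b, hb⟩⟩ ⟨⟨a', ha'⟩, ⟨b', hb'⟩⟩ hxy
    have hy := hlt (⟨a', ha'⟩, ⟨b', hb'⟩)
    simp only [Fin.mk.injEq] at hxy hy ⊢
    rcases hxy with ⟨e1, e2⟩ | ⟨e1, e2⟩
    · subst e1; subst e2
      have e3 : (a + 1) * t + b = a * t + b + t := by ring
      have := h3 ((a + 1) * t + b) hy (by rw [e3]; omega)
      rw [e3, Nat.add_sub_cancel] at this
      rw [e3]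
      exact this
    · subst e1; subst e2
      have e3 : (a * t + (b + 1)) % t = b + 1 := by
        rw [Nat.add_comm, Nat.add_mul_mod_self_right, Nat.mod_eq_of_lt hb']
      have := h2 (a * t + (b + 1)) hy (by rw [e3]; omega)
      have e4 : a * t + (b + 1) - 1 = a * t + b := by omega
      rw [e4] at this
      exact this
  refine ⟨fun x => (B (x.1.val * t + x.2.val) : Set V), fun x => h0 _ (hlt x), ?_, ?_⟩
  · intro x y hxy
    have := h1 _ (hlt x) _ (hlt y) (fun h => hxy (hinj x y h))
    exact Finset.disjoint_coe.2 this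
  · intro x y hxy
    have hsw : ∀ {S S' : Finset V}, (∃ u ∈ S, ∃ v ∈ S', G.Adj u v) →
        ∃ u ∈ S', ∃ v ∈ S, G.Adj u v := by
      rintro S S' ⟨u, hu, v, hv, huv⟩
      exact ⟨v, hv, u, hu, huv.symm⟩
    rw [grid, boxProd_adj] at hxy
    rcases hxy with ⟨hxy, e⟩ | ⟨hxy, e⟩
    · rw [pathGraph_adj] at hxy
      rcases hxy with hxy | hxy
      · exact key x y (Or.inl ⟨hxy, e⟩)
      · exact hsw (key y x (Or.inl ⟨hxy, e.symm⟩))
    · rw [pathGraph_adj] at hxy
      rcases hxy with hxy | hxy
      · exact key x y (Or.inr ⟨hxy, e⟩)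
      · exact hsw (key y x (Or.inr ⟨hxy, e.symm⟩))

/-- the unused vertices -/
noncomputable def unused {V : Type} [Fintype V] (f : ℕ → V) (k : ℕ) : Finset V :=
  univ.filter (fun z => ∀ i < k, f i ≠ z)

lemma mem_unused {V : Type} [Fintype V] {f : ℕ → V} {k : ℕ} {z : V} :
    z ∈ unused f k ↔ ∀ i < k, f i ≠ z := by
  simp [unused]

/-- the vertices in the branch sets with indices in `[k, p)` -/
noncomputable def newUsed {V : Type} (B : ℕ → Finset V) (k p : ℕ) : Finset V :=
  (Finset.Ico k p).biUnion B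

/-- the state of the second phase -/
def St {V : Type} [Fintype V] (G : SimpleGraph V) (t k : ℕ) (f : ℕ → V) (p c : ℕ) : Prop :=
  ∃ B : ℕ → Finset V, Model G t p B ∧ (∀ i < k, B i = {f i}) ∧
    (∀ i, k ≤ i → i < p → B i ⊆ unused f k) ∧ (newUsed B k p).card ≤ c

lemma st_mono {V : Type} [Fintype V] {G : SimpleGraph V} {t k : ℕ} {f : ℕ → V} {p c c' : ℕ}
    (h : St G t k f p c) (hc : c ≤ c') : St G t k f p c' := by
  obtain ⟨B, h1, h2, h3, h4⟩ := h
  exact ⟨B, h1, h2, h3, h4.trans hc⟩

lemma st_start {V : Type} [Fintype V] {G : SimpleGraph V} {t k : ℕ} {f : ℕ → V}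
    (h : Good G t k f) : St G t k f k 0 := by
  obtain ⟨g1, g2, g3⟩ := h
  refine ⟨fun i => {f i}, ⟨?_, ?_, ?_, ?_⟩, fun i _ => rfl, ?_, ?_⟩
  · intro i _
    rw [coe_singleton, connected_iff_exists_forall_reachable]
    refine ⟨⟨f i, rfl⟩, ?_⟩
    rintro ⟨w, rfl⟩
    exact Reachable.refl _
  · intro i hi j hj hij
    rw [disjoint_singleton]
    exact fun e => hij (g1 i hi j hj e)
  · intro i hi hit
    exact ⟨_, mem_singleton_self _, _, mem_singleton_self _, g2 i hi hit⟩
  · intro i hi hit
    exact ⟨_, mem_singleton_self _, _, mem_singleton_self _, g3 i hi hit⟩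
  · intro i h1 h2
    omega
  · simp [newUsed]

/-- extending the model by one branch set -/
lemma st_extend {V : Type} [Fintype V] {G : SimpleGraph V} {t k : ℕ} {f : ℕ → V} {p c c' : ℕ}
    (ht : 2 ≤ t) (hkp : k ≤ p) {B : ℕ → Finset V} (hB : Model G t p B)
    (hB1 : ∀ i < k, B i = {f i}) (hB2 : ∀ i, k ≤ i → i < p → B i ⊆ unused f k)
    (hB3 : (newUsed B k p).card ≤ c) (X : Finset V) (hXc : (G.induce (X : Set V)).Connected)
    (hXu : X ⊆ unused f k) (hXd : Disjoint X (newUsed B k p)) (hX : X.card ≤ c')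
    (h1 : p % t ≠ 0 → ∃ u ∈ B (p - 1), ∃ v ∈ X, G.Adj u v)
    (h2 : t ≤ p → ∃ u ∈ B (p - t), ∃ v ∈ X, G.Adj u v) : St G t k f (p + 1) (c + c') := by
  obtain ⟨b0, b1, b2, b3⟩ := hB
  have hdis : ∀ i < p, Disjoint X (B i) := by
    intro i hi
    rcases Nat.lt_or_ge i k with hik | hik
    · rw [hB1 i hik, disjoint_singleton_right]
      intro h
      exact mem_unused.1 (hXu h) i hik rfl
    · refine hXd.mono_right ?_
      exact subset_biUnion_of_mem B (mem_Ico.2 ⟨hik, hi⟩)
  refine ⟨fun i => if i = p then X else B i, ⟨?_, ?_, ?_, ?_⟩, ?_, ?_, ?_⟩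
  · intro i hi
    dsimp only
    by_cases e : i = p
    · rw [if_pos e]; exact hXc
    · rw [if_neg e]; exact b0 i (by omega)
  · intro i hi j hj hij
    dsimp only
    by_cases e : i = p
    · rw [if_pos e, if_neg (by omega)]
      exact hdis j (by omega)
    · by_cases e' : j = p
      · rw [if_neg e, if_pos e']
        exact (hdis i (by omega)).symm
      · rw [if_neg e, if_neg e']
        exact b1 i (by omega) j (by omega) hij
  · intro i hi hit
    dsimp only
    have hi0 : i ≠ 0 := by
      rintro rfl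
      exact hit (Nat.zero_mod t)
    rw [if_neg (by omega : i - 1 ≠ p)]
    by_cases e : i = p
    · subst e
      rw [if_pos rfl]
      exact h1 hit
    · rw [if_neg e]
      exact b2 i (by omega) hit
  · intro i hi hit
    dsimp only
    rw [if_neg (by omega : i - t ≠ p)]
    by_cases e : i = p
    · subst e
      rw [if_pos rfl]
      exact h2 hit
    · rw [if_neg e]
      exact b3 i (by omega) hit
  · intro i hi
    dsimp only
    rw [if_neg (by omega)]
    exact hB1 i hi
  · intro i hki hi
    dsimp only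
    by_cases e : i = p
    · rw [if_pos e]; exact hXu
    · rw [if_neg e]; exact hB2 i hki (by omega)
  · have : newUsed (fun i => if i = p then X else B i) k (p + 1) ⊆ newUsed B k p ∪ X := by
      intro x hx
      rw [newUsed, mem_biUnion] at hx
      obtain ⟨i, hi, hxi⟩ := hx
      rw [mem_Ico] at hi
      rw [mem_union]
      by_cases e : i = p
      · rw [if_pos e] at hxi
        exact Or.inr hxi
      · rw [if_neg e] at hxi
        exact Or.inl (mem_biUnion.2 ⟨i, mem_Ico.2 ⟨hi.1, by omega⟩, hxi⟩)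
    have h3 := (card_le_card this).trans (card_union_le _ _)
    omega

lemma connected_single {V : Type} (G : SimpleGraph V) (x : V) :
    (G.induce ((({x} : Finset V) : Set V))).Connected := by
  rw [coe_singleton, connected_iff_exists_forall_reachable]
  refine ⟨⟨x, rfl⟩, ?_⟩
  rintro ⟨w, rfl⟩
  exact Reachable.refl _

lemma connected_pair {V : Type} {G : SimpleGraph V} {x y : V} (h : G.Adj x y) :
    (G.induce ((({x, y} : Finset V) : Set V))).Connected := by
  rw [coe_pair]
  exact induce_pair_connected_of_adj h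

lemma connected_triple {V : Type} {G : SimpleGraph V} {x s y : V} (h : G.Adj x s)
    (h' : G.Adj y s) : (G.induce ((({x, s, y} : Finset V) : Set V))).Connected := by
  have h1 := connected_induce_union (induce_pair_connected_of_adj h).preconnected
    (induce_pair_connected_of_adj h'.symm).preconnected (Set.mem_insert x {s})
    (Set.mem_insert s {y}) h
  have h2 : (({x, s, y} : Finset V) : Set V) = ({x, s} ∪ {s, y} : Set V) := by
    ext a
    simp only [coe_insert, coe_singleton, Set.mem_insert_iff, Set.mem_singleton_iff, Set.mem_union]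
    tauto
  rw [h2]
  exact h1

/-- a nonempty branch set -/
lemma model_nonempty {V : Type} {G : SimpleGraph V} {t p : ℕ} {B : ℕ → Finset V}
    (h : Model G t p B) {i : ℕ} (hi : i < p) : ∃ a, a ∈ B i := by
  obtain ⟨⟨a, ha⟩⟩ := (h.1 i hi).nonempty
  exact ⟨a, ha⟩

section Phase2

variable {V : Type} [Fintype V] {G : SimpleGraph V} {t k : ℕ} {f : ℕ → V} {L M : ℕ}

/-- one parent: a single vertex suffices -/
lemma step_one (ht : 2 ≤ t) (hk : 2 ≤ k) {p c : ℕ} (hkp : k ≤ p)
    (hL : ∀ v, L ≤ (nb G v ∩ unused f k).card) (h : St G t k f p c) (hc : c < L)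
    (hp : p % t = 0 ∨ p < t) : St G t k f (p + 1) (c + 1) := by
  obtain ⟨B, hB, hB1, hB2, hB3⟩ := h
  -- the parent
  obtain ⟨j, hj, hj1, hj2⟩ : ∃ j < p, (p % t ≠ 0 → p - 1 = j) ∧ (t ≤ p → p - t = j) := by
    rcases hp with h1 | h1
    · by_cases htp : t ≤ p
      · exact ⟨p - t, by omega, fun h => absurd h1 h, fun _ => rfl⟩
      · have : p % t = p := Nat.mod_eq_of_lt (by omega)
        omega
    · exact ⟨p - 1, by omega, fun _ => rfl, fun h => by omega⟩
  obtain ⟨a, ha⟩ := model_nonempty hB hj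
  have hlt : (newUsed B k p).card < (nb G a ∩ unused f k).card :=
    lt_of_le_of_lt hB3 (lt_of_lt_of_le hc (hL a))
  obtain ⟨x, hx, hxn⟩ := exists_mem_notMem_of_card_lt_card hlt
  rw [mem_inter, mem_nb] at hx
  refine st_extend ht hkp hB hB1 hB2 hB3 {x} (connected_single G x)
    (singleton_subset_iff.2 hx.2) (disjoint_singleton_left.2 hxn) (by simp) ?_ ?_
  · intro h
    rw [hj1 h]
    exact ⟨a, ha, x, mem_singleton_self x, hx.1⟩
  · intro h
    rw [hj2 h]
    exact ⟨a, ha, x, mem_singleton_self x, hx.1⟩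

/-- two old parents: at most three vertices -/
lemma step_w (ht : 2 ≤ t) (hk : 2 ≤ k)
    (hL : ∀ v, L ≤ (nb G v ∩ unused f k).card)
    (hM : ∀ x y, x ∈ unused f k → y ∈ unused f k → x ≠ y → M ≤ (cn G x y ∩ unused f k).card)
    (h : St G t k f k 0) (hL1 : 1 ≤ L) (hM1 : 1 ≤ M) : St G t k f (k + 1) 3 := by
  by_cases hp : k % t = 0 ∨ k < t
  · exact st_mono (step_one ht hk le_rfl hL h (by omega) hp) (by omega)
  push Not at hp
  obtain ⟨B, hB, hB1, hB2, hB3⟩ := h
  have hnew : newUsed B k k = ∅ := by simp [newUsed]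
  obtain ⟨a, ha⟩ := model_nonempty hB (i := k - 1) (by omega)
  obtain ⟨b, hb⟩ := model_nonempty hB (i := k - t) (by omega)
  obtain ⟨x, hx⟩ : (nb G a ∩ unused f k).Nonempty := card_pos.1 (by have := hL a; omega)
  obtain ⟨y, hy⟩ : (nb G b ∩ unused f k).Nonempty := card_pos.1 (by have := hL b; omega)
  rw [mem_inter, mem_nb] at hx hy
  by_cases hxy : x = y
  · subst hxy
    have := st_extend ht le_rfl hB hB1 hB2 hB3 {x} (connected_single G x)
      (singleton_subset_iff.2 hx.2) (by rw [hnew]; exact disjoint_empty_right _)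
      (card_singleton x).le
      (fun _ => ⟨a, ha, x, mem_singleton_self x, hx.1⟩)
      (fun _ => ⟨b, hb, x, mem_singleton_self x, hy.1⟩)
    exact st_mono this (by omega)
  · obtain ⟨s, hs⟩ : (cn G x y ∩ unused f k).Nonempty :=
      card_pos.1 (by have := hM x y hx.2 hy.2 hxy; omega)
    rw [mem_inter, mem_cn] at hs
    have := st_extend ht le_rfl hB hB1 hB2 hB3 {x, s, y} (connected_triple hs.1.1 hs.1.2)
      (by
        intro w hw
        rw [mem_insert, mem_insert, mem_singleton] at hw
        rcases hw with rfl | rfl | rfl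
        · exact hx.2
        · exact hs.2
        · exact hy.2) (by rw [hnew]; exact disjoint_empty_right _)
      card_le_three
      (fun _ => ⟨a, ha, x, by simp, hx.1⟩)
      (fun _ => ⟨b, hb, y, by simp, hy.1⟩)
    exact st_mono this (by omega)

/-- a new left parent and an old upper parent: at most two vertices -/
lemma step_two (ht : 2 ≤ t) (hk : 2 ≤ k) {p c : ℕ} (hkp : k < p)
    (hL : ∀ v, L ≤ (nb G v ∩ unused f k).card)
    (hM : ∀ x y, x ∈ unused f k → y ∈ unused f k → x ≠ y → M ≤ (cn G x y ∩ unused f k).card)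
    (h : St G t k f p c) (hcL : c < L) (hcM : c ≤ M) :
    St G t k f (p + 1) (c + 2) := by
  by_cases hp : p % t = 0 ∨ p < t
  · exact st_mono (step_one ht hk hkp.le hL h hcL hp) (by omega)
  push Not at hp
  obtain ⟨B, hB, hB1, hB2, hB3⟩ := h
  obtain ⟨a, ha⟩ := model_nonempty hB (i := p - 1) (by omega)
  obtain ⟨b, hb⟩ := model_nonempty hB (i := p - t) (by omega)
  have hau : a ∈ unused f k := hB2 (p - 1) (by omega) (by omega) ha
  have han : a ∈ newUsed B k p := mem_biUnion.2 ⟨p - 1, mem_Ico.2 ⟨by omega, by omega⟩, ha⟩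
  have hlt : (newUsed B k p).card < (nb G b ∩ unused f k).card :=
    lt_of_le_of_lt hB3 (lt_of_lt_of_le hcL (hL b))
  obtain ⟨y, hy, hyn⟩ := exists_mem_notMem_of_card_lt_card hlt
  rw [mem_inter, mem_nb] at hy
  have hay : a ≠ y := fun e => hyn (e ▸ han)
  have hlt2 : ((newUsed B k p).erase a).card < (cn G a y ∩ unused f k).card := by
    rw [card_erase_of_mem han]
    have h1 := hM a y hau hy.2 hay
    have h2 : 0 < (newUsed B k p).card := card_pos.2 ⟨a, han⟩
    omega
  obtain ⟨s, hs, hsn⟩ := exists_mem_notMem_of_card_lt_card hlt2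
  rw [mem_inter, mem_cn] at hs
  have hsa : s ≠ a := hs.1.1.ne'
  have hsn' : s ∉ newUsed B k p := fun h => hsn (mem_erase.2 ⟨hsa, h⟩)
  refine st_extend ht hkp.le hB hB1 hB2 hB3 {s, y} (connected_pair hs.1.2.symm) ?_ ?_ card_le_two
    (fun _ => ⟨a, ha, s, by simp, hs.1.1⟩) (fun _ => ⟨b, hb, y, by simp, hy.1⟩)
  · intro w hw
    rw [mem_insert, mem_singleton] at hw
    rcases hw with rfl | rfl
    · exact hs.2
    · exact hy.2
  · rw [disjoint_insert_left, disjoint_singleton_left]
    exact ⟨hsn', hyn⟩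

/-- new parents: a single vertex -/
lemma step_new (ht : 2 ≤ t) (hk : 2 ≤ k) {p c : ℕ} (hpk : k + t ≤ p)
    (hL : ∀ v, L ≤ (nb G v ∩ unused f k).card)
    (hM : ∀ x y, x ∈ unused f k → y ∈ unused f k → x ≠ y → M ≤ (cn G x y ∩ unused f k).card)
    (h : St G t k f p c) (hcL : c < L) (hcM : c ≤ M + 1) :
    St G t k f (p + 1) (c + 1) := by
  by_cases hp : p % t = 0 ∨ p < t
  · exact step_one ht hk (by omega) hL h hcL hp
  push Not at hp
  obtain ⟨B, hB, hB1, hB2, hB3⟩ := h
  obtain ⟨a, ha⟩ := model_nonempty hB (i := p - 1) (by omega)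
  obtain ⟨b, hb⟩ := model_nonempty hB (i := p - t) (by omega)
  have hau : a ∈ unused f k := hB2 (p - 1) (by omega) (by omega) ha
  have hbu : b ∈ unused f k := hB2 (p - t) (by omega) (by omega) hb
  have han : a ∈ newUsed B k p := mem_biUnion.2 ⟨p - 1, mem_Ico.2 ⟨by omega, by omega⟩, ha⟩
  have hbn : b ∈ newUsed B k p := mem_biUnion.2 ⟨p - t, mem_Ico.2 ⟨by omega, by omega⟩, hb⟩
  have hab : a ≠ b := by
    rintro rfl
    exact disjoint_left.1 (hB.2.1 (p - 1) (by omega) (p - t) (by omega) (by omega)) ha hb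
  have hlt2 : (((newUsed B k p).erase a).erase b).card < (cn G a b ∩ unused f k).card := by
    rw [card_erase_of_mem (mem_erase.2 ⟨hab.symm, hbn⟩), card_erase_of_mem han]
    have h1 := hM a b hau hbu hab
    have h2 : 1 < (newUsed B k p).card := one_lt_card.2 ⟨a, han, b, hbn, hab⟩
    omega
  obtain ⟨s, hs, hsn⟩ := exists_mem_notMem_of_card_lt_card hlt2
  rw [mem_inter, mem_cn] at hs
  have hsn' : s ∉ newUsed B k p := fun h =>
    hsn (mem_erase.2 ⟨hs.1.2.ne', mem_erase.2 ⟨hs.1.1.ne', h⟩⟩)
  exact st_extend ht (by omega) hB hB1 hB2 hB3 {s} (connected_single G s)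
    (singleton_subset_iff.2 hs.2) (disjoint_singleton_left.2 hsn') (by simp)
    (fun _ => ⟨a, ha, s, mem_singleton_self s, hs.1.1⟩)
    (fun _ => ⟨b, hb, s, mem_singleton_self s, hs.1.2⟩)

/-- **Phase 2**: completing the model -/
theorem phase2 (ht : 2 ≤ t) (hk : 2 ≤ k) {K : ℕ} (hkK : k < K) (hg : Good G t k f)
    (hL : ∀ v, L ≤ (nb G v ∩ unused f k).card)
    (hM : ∀ x y, x ∈ unused f k → y ∈ unused f k → x ≠ y → M ≤ (cn G x y ∩ unused f k).card)
    (hLK : K + t ≤ L + k) (hMK : K + t ≤ M + k + 2) : ∃ B, Model G t K B := by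
  -- the index of the next row start
  obtain ⟨p0, hp0, hp1, hp2⟩ : ∃ p0, p0 % t = 0 ∧ k ≤ p0 ∧ p0 < k + t := by
    have hlt := Nat.mod_lt k (by omega : 0 < t)
    by_cases hj : k % t = 0
    · exact ⟨k, hj, le_rfl, by omega⟩
    · refine ⟨k - k % t + t, ?_, by omega, by omega⟩
      rw [Nat.add_mod_right]
      have h1 := Nat.div_add_mod k t
      have h2 : k - k % t = t * (k / t) := by omega
      rw [h2]
      exact Nat.mul_mod_right t _
  have key : ∀ p, k < p → p ≤ K → St G t k f p
      (if p ≤ p0 then 2 * (p - k) + 1 else if p ≤ k + t then 2 * (p - k) else p - k + t) := by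
    intro p hkp
    induction p, hkp using Nat.le_induction with
    | base =>
      intro hle
      have h0 := st_start hg
      by_cases hk0 : k = p0
      · -- a row start
        have := step_one ht hk le_rfl hL h0 (by omega) (Or.inl (hk0 ▸ hp0))
        refine st_mono this ?_
        split_ifs <;> omega
      · have := step_w ht hk hL hM h0 (by omega) (by omega)
        refine st_mono this ?_
        split_ifs <;> omega
    | succ p hp ih =>
      intro hle
      have hst := ih (by omega)
      by_cases hpt : p < k + t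
      · by_cases hpp : p = p0
        · subst hpp
          rw [if_pos le_rfl] at hst
          have := step_one ht hk (by omega) hL hst (by omega) (Or.inl hp0)
          refine st_mono this ?_
          split_ifs <;> omega
        · by_cases hlt : p < p0
          · rw [if_pos hlt.le] at hst
            have := step_two ht hk (by omega) hL hM hst (by omega) (by omega)
            refine st_mono this ?_
            split_ifs <;> omega
          · rw [if_neg (by omega), if_pos hpt.le] at hst
            have := step_two ht hk (by omega) hL hM hst (by omega) (by omega)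
            refine st_mono this ?_
            split_ifs <;> omega
      · have hst' : St G t k f p (p - k + t) := by
          refine st_mono hst ?_
          split_ifs <;> omega
        have := step_new ht hk (by omega) hL hM hst' (by omega) (by omega)
        refine st_mono this ?_
        split_ifs <;> omega
  obtain ⟨B, hB, -⟩ := key K hkK le_rfl
  exact ⟨B, hB⟩

end Phase2

end Pool.Agent.Helper810.Grid
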