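import Mathlib
import Pool.Agent.Helper810_Grid.Host2

/-!
Dense host graphs contain the grid as a minor; the improved local step.
-/

set_option autoImplicit false

namespace Pool.Agent.Helper810.Grid

open SimpleGraph Finset Classical

/-- the number of used vertices missed by `z` is the number of missed indices -/
lemma card_miss_used {V : Type} [Fintype V] {G : SimpleGraph V} {t k : ℕ} {f : ℕ → V}
    (hg : Good G t k f) (z : V) :
    ((univ.filter (fun x => ¬ G.Adj z x)) \ unused f k).card = (missIdx G f k z).card := by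
  have h1 : (univ.filter (fun x => ¬ G.Adj z x)) \ unused f k = (missIdx G f k z).image f := by
    ext x
    simp only [mem_sdiff, mem_filter, mem_univ, true_and, mem_unused, mem_image, mem_missIdx]
    constructor
    · rintro ⟨h2, h3⟩
      push Not at h3
      obtain ⟨i, hi, rfl⟩ := h3
      exact ⟨i, ⟨hi, h2⟩, rfl⟩
    · rintro ⟨i, ⟨hi, h2⟩, rfl⟩
      exact ⟨h2, fun h => h i hi rfl⟩
  rw [h1, card_image_of_injOn]
  intro i hi j hj hij
  rw [mem_coe, mem_missIdx] at hi hj
  exact hg.1 i hi.1 j hj.1 hij

lemma card_unused {V : Type} [Fintype V] {G : SimpleGraph V} {t k : ℕ} {f : ℕ → V}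
    (hg : Good G t k f) : (unused f k).card + k = Fintype.card V := by
  have h1 : univ \ unused f k = (range k).image f := by
    ext x
    simp only [mem_sdiff, mem_univ, true_and, mem_unused, mem_image, mem_range]
    push Not
    rfl
  have h2 : ((range k).image f).card = k := by
    rw [card_image_of_injOn, card_range]
    intro i hi j hj hij
    rw [mem_coe, mem_range] at hi hj
    exact hg.1 i hi j hj hij
  have h3 := card_sdiff_add_card_eq_card (subset_univ (unused f k))
  rw [h1, h2, card_univ] at h3
  omega

lemma card_nonadj {V : Type} [Fintype V] {G : SimpleGraph V} {q : ℕ} {v : V}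
    (hq : Fintype.card V ≤ (nb G v).card + q) :
    (univ.filter (fun x => ¬ G.Adj v x)).card ≤ q := by
  have h1 := card_filter_add_card_filter_not (s := (univ : Finset V)) (fun x => G.Adj v x)
  rw [card_univ] at h1
  have h2 : (univ.filter (fun x => G.Adj v x)).card = (nb G v).card := rfl
  omega

/-- **The host lemma.** -/
theorem host {V : Type} [Fintype V] {G : SimpleGraph V} {t q m s : ℕ} (ht : 2 ≤ t)
    (hq : ∀ v, Fintype.card V ≤ (nb G v).card + q) (hn : t * t ≤ Fintype.card V) (hm : 1 ≤ m)
    (hmq : m + 2 * q ≤ Fintype.card V)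
    (h : t * t ≤ m + 2 ∨ 4 * q < m + 4 ∨
      (4 * s < m + 4 ∧ t * t + t ≤ m + 2 * s + 2 ∧ t * t + t + q ≤ Fintype.card V + 1)) :
    IsMinor (grid t) G := by
  have h4 : 4 ≤ t * t := Nat.mul_le_mul ht ht
  rcases phase1 ht hq hm hmq (by omega) (t * t) with ⟨f, hf⟩ | ⟨k, f, hk2, hkT, hg, hmk, hbl⟩
  · exact good_minor hf
  -- every unused vertex has a non-neighbour among the used ones besides itself
  have hun := card_unused hg
  have hsplit : ∀ z, (unused f k \ nb G z).card + (missIdx G f k z).card ≤ q := by
    intro z
    rw [← card_miss_used hg z]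
    have h1 := card_nonadj (hq z)
    have h2 : unused f k \ nb G z = (univ.filter (fun x => ¬ G.Adj z x)) ∩ unused f k := by
      ext x
      simp only [mem_sdiff, mem_inter, mem_filter, mem_univ, true_and, mem_nb]
      tauto
    rw [h2, add_comm, card_sdiff_add_card_inter]
    exact h1
  rcases h with h | h | ⟨hs1, hs2, hs3⟩
  · omega
  · -- exchanges are always possible
    exfalso
    obtain ⟨z, hz⟩ : (unused f k).Nonempty := card_pos.1 (by omega)
    have h1 := hbl z (mem_unused.1 hz)
    have h2 := hsplit z
    have h3 : 0 < (unused f k \ nb G z).card :=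
      card_pos.2 ⟨z, mem_sdiff.2 ⟨hz, fun h => G.loopless.irrefl z (mem_nb.1 h)⟩⟩
    omega
  · -- the second phase
    have hsz : ∀ z ∈ unused f k, s ≤ (missIdx G f k z).card := by
      intro z hz
      have := hbl z (mem_unused.1 hz)
      omega
    have hdeg : ∀ v, (nb G v ∩ unused f k).card + (unused f k \ nb G v).card =
        (unused f k).card := by
      intro v
      rw [inter_comm, add_comm]
      exact card_sdiff_add_card_inter _ _
    have hself : ∀ v, (v ∈ unused f k → 0 < (unused f k \ nb G v).card) ∧
        (v ∉ unused f k → 0 < (missIdx G f k v).card) := by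
      intro v
      constructor
      · intro hv
        exact card_pos.2 ⟨v, mem_sdiff.2 ⟨hv, fun h => G.loopless.irrefl v (mem_nb.1 h)⟩⟩
      · intro hv
        rw [mem_unused] at hv
        push Not at hv
        obtain ⟨i, hi, rfl⟩ := hv
        exact card_pos.2 ⟨i, mem_missIdx.2 ⟨hi, G.loopless.irrefl _⟩⟩
    have hs0 : 1 ≤ s := by
      by_contra hcon
      have h5 : s = 0 := by omega
      subst h5
      omega
    have hL : ∀ v, Fintype.card V + 1 - k - q ≤ (nb G v ∩ unused f k).card := by
      intro v
      have h1 := hsplit v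
      have h2 := hdeg v
      have h3 : 1 ≤ (missIdx G f k v).card := by
        by_cases hv : v ∈ unused f k
        · exact hs0.trans (hsz v hv)
        · exact (hself v).2 hv
      omega
    have hM : ∀ x y, x ∈ unused f k → y ∈ unused f k → x ≠ y →
        Fintype.card V + 2 * s - k - 2 * q ≤ (cn G x y ∩ unused f k).card := by
      intro x y hx hy _
      have h1 : unused f k ⊆ (cn G x y ∩ unused f k) ∪
          ((unused f k \ nb G x) ∪ (unused f k \ nb G y)) := by
        intro z hz
        simp only [mem_union, mem_inter, mem_cn, mem_sdiff, mem_nb]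
        tauto
      have h2 := (card_le_card h1).trans (card_union_le _ _)
      have h3 := card_union_le (unused f k \ nb G x) (unused f k \ nb G y)
      have h5 := hsplit x
      have h6 := hsplit y
      have h7 := hsz x hx
      have h8 := hsz y hy
      omega
    obtain ⟨B, hB⟩ := phase2 ht hk2 hkT hg hL hM (by omega) (by omega)
    exact model_minor hB

/-- a graph with large minimum degree contains the grid -/
theorem jhost {V : Type} [Fintype V] {G : SimpleGraph V} {t δ mb s : ℕ} (ht : 2 ≤ t)
    (hmb : 1 ≤ mb) (hs1 : 4 * s < mb + 4) (hs2 : t * t + t ≤ mb + 2 * s + 2)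
    (hn : t * t ≤ Fintype.card V) (hδ : δ ≤ Fintype.card V) (hd : ∀ v, δ ≤ (nb G v).card)
    (h : t * t + Fintype.card V ≤ 2 * δ + 2 ∨ 5 * Fintype.card V < 6 * δ + 4 ∨
      (mb + Fintype.card V ≤ 2 * δ ∧ t * t + t ≤ δ + 1)) : IsMinor (grid t) G := by
  have h4 : 4 ≤ t * t := Nat.mul_le_mul ht ht
  set n := Fintype.card V with hn'
  refine host ht (q := n - δ) (m := 2 * δ - n) (s := s) ?_ hn ?_ ?_ ?_
  · intro v
    have := hd v
    omega
  · rcases h with h | h | h <;> omega
  · rcases h with h | h | h <;> omega
  · rcases h with h | h | h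
    · left; omega
    · right; left; omega
    · right; right
      refine ⟨by omega, by omega, by omega⟩

/-- the closed neighbourhood of a vertex all of whose edges are in many triangles contains the
grid -/
theorem vhost {V : Type} [Fintype V] {G : SimpleGraph V} {t K mb s : ℕ} (ht : 2 ≤ t)
    (hmb : 1 ≤ mb) (hs1 : 4 * s < mb + 4) (hs2 : t * t + t ≤ mb + 2 * s + 2) (v : V)
    (hn : t * t ≤ (nb G v).card + 1) (hK : K < (nb G v).card)
    (hd : ∀ w, G.Adj v w → K ≤ (cn G v w).card)
    (h : t * t + (nb G v).card ≤ 2 * K + 3 ∨ 5 * (nb G v).card < 6 * K + 5 ∨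
      (mb + (nb G v).card ≤ 2 * K + 1 ∧ t * t + t ≤ K + 2)) : IsMinor (grid t) G := by
  set S : Set V := {x | x = v ∨ G.Adj v x} with hS
  have hcard : Fintype.card S = (nb G v).card + 1 := by
    have h1 : (insert v (nb G v)).card = (nb G v).card + 1 := by
      apply card_insert_of_notMem
      rw [mem_nb]
      exact G.loopless.irrefl v
    rw [← h1]
    apply Fintype.card_of_subtype
    intro x
    rw [mem_insert, mem_nb]
    exact Iff.rfl
  refine minor_trans (jhost (G := G.induce S) (δ := K + 1) ht hmb hs1 hs2 ?_ ?_ ?_ ?_)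
    (induce_minor G S)
  · omega
  · omega
  · rintro ⟨x, hx⟩
    have himg : (nb (G.induce S) ⟨x, hx⟩).card = ((nb G x).filter (fun y => y ∈ S)).card := by
      rw [← card_image_of_injective (nb (G.induce S) ⟨x, hx⟩) Subtype.val_injective]
      congr 1
      ext y
      simp only [mem_image, mem_nb, mem_filter]
      constructor
      · rintro ⟨⟨b, hb⟩, hb', rfl⟩
        exact ⟨hb', hb⟩
      · rintro ⟨h1, h2⟩
        exact ⟨⟨y, h2⟩, h1, rfl⟩
    rw [himg]
    rcases hx with rfl | hx
    · have : nb G x ⊆ (nb G x).filter (fun y => y ∈ S) := by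
        intro y hy
        rw [mem_filter]
        exact ⟨hy, Or.inr (mem_nb.1 hy)⟩
      exact hK.trans_le (card_le_card this)
    · have h1 : insert v (cn G v x) ⊆ (nb G x).filter (fun y => y ∈ S) := by
        intro y hy
        rw [mem_insert, mem_cn] at hy
        rw [mem_filter, mem_nb]
        rcases hy with rfl | hy
        · exact ⟨hx.symm, Or.inl rfl⟩
        · exact ⟨hy.2, Or.inr hy.1⟩
      have h2 := card_le_card h1
      rw [card_insert_of_notMem (by
        rw [mem_cn]
        exact fun h => G.loopless.irrefl v h.1)] at h2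
      have h3 := hd x hx
      omega
  · rcases h with h | h | h
    · left; omega
    · right; left; omega
    · right; right
      constructor
      · omega
      · omega

/-- deleting or contracting at a vertex of small degree or with an edge in few triangles -/
theorem step_loss {V : Type} [Fintype V] {G : SimpleGraph V} {t l mb s : ℕ} (ht : 2 ≤ t)
    (hmb : 1 ≤ mb) (hs1 : 4 * s < mb + 4) (hs2 : t * t + t ≤ mb + 2 * s + 2) (v : V)
    (h : (nb G v).card ≤ l ∨ (t * t ≤ (nb G v).card + 1 ∧
      (t * t + (nb G v).card ≤ 2 * l + 3 ∨ 5 * (nb G v).card < 6 * l + 5 ∨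
      (mb + (nb G v).card ≤ 2 * l + 1 ∧ t * t + t ≤ l + 2)))) :
    IsMinor (grid t) G ∨ ∃ (W : Type) (_ : Fintype W) (H : SimpleGraph W), IsMinor H G ∧
      Fintype.card W + 1 = Fintype.card V ∧ pr G ≤ pr H + 2 * l := by
  by_cases hle : (nb G v).card ≤ l
  · right
    refine ⟨{x : V | x ≠ v}, inferInstance, G.induce {x | x ≠ v}, induce_minor _ _,
      card_delete v, ?_⟩
    have h1 := pr_delete_vertex G v
    omega
  · rcases h with h | ⟨h1, h2⟩
    · exact absurd h hle
    by_cases hc : ∀ w, G.Adj v w → l ≤ (cn G v w).card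
    · left
      exact vhost ht hmb hs1 hs2 v h1 (by omega) hc h2
    · right
      push Not at hc
      obtain ⟨w, hw, hlt⟩ := hc
      refine ⟨{x : V // x ≠ w}, inferInstance, quot G (cmap v w hw.ne), contract_minor hw,
        card_delete' w, ?_⟩
      have h3 := pr_contract hw
      have h4 : nb G v ∩ nb G w = cn G v w := by
        ext a
        simp only [mem_inter, mem_cn, mem_nb]
      rw [h4] at h3
      omega

end Pool.Agent.Helper810.Grid
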