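import Mathlib
import Pool.Agent.Helper810_Grid.Step

/-!
The reduction to a small dense minor, and the main bound.
-/

set_option autoImplicit false

namespace Pool.Agent.Helper810.Grid

open SimpleGraph Finset Classical

/-- **Mader's reduction** with a real parameter: average degree at least `D` gives a minor on fewer
than `D + 1` vertices with all degrees larger than `D / 2 - 1` -/
theorem small_dense {D : ℝ} (hD : 0 < D) : ∀ (N : ℕ) (V : Type) [Fintype V] (G : SimpleGraph V),
    Fintype.card V + pr G ≤ N → 0 < Fintype.card V → D * Fintype.card V ≤ pr G →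
    ∃ (A : Type) (_ : Fintype A) (J : SimpleGraph A), IsMinor J G ∧ 0 < Fintype.card A ∧
      (Fintype.card A : ℝ) < D + 1 ∧ ∀ a, D / 2 - 1 < (nb J a).card := by
  intro N
  induction N with
  | zero =>
    intro V _ G h1 h2
    omega
  | succ N ih =>
    intro V _ G hN hV hpr
    have hV' : (0 : ℝ) < Fintype.card V := by exact_mod_cast hV
    have hVpr : 0 < D * Fintype.card V := by positivity
    have hpr0 : 0 < pr G := by
      have : (0 : ℝ) < pr G := lt_of_lt_of_le hVpr hpr
      exact_mod_cast this
    -- there is an edge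
    obtain ⟨u0, v0, h0⟩ : ∃ u v, G.Adj u v := by
      by_contra hcon
      push Not at hcon
      have : pr G = 0 := by
        unfold pr
        rw [card_eq_zero, filter_eq_empty_iff]
        rintro ⟨a, b⟩ _
        exact hcon a b
      omega
    have hV2 : 2 ≤ Fintype.card V := by
      have : Nontrivial V := ⟨u0, v0, h0.ne⟩
      exact Fintype.one_lt_card
    have hV2' : (2 : ℝ) ≤ Fintype.card V := by exact_mod_cast hV2
    by_cases hdeg : ∀ x, D + 1 ≤ (nb G x).card
    · -- delete an edge
      have h1 := pr_delete h0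
      have h1' : (pr (G.deleteEdges {s(u0, v0)}) : ℝ) + 2 = pr G := by exact_mod_cast h1
      have h2 : (D + 1) * Fintype.card V ≤ pr G := by
        rw [pr_eq, Nat.cast_sum]
        calc (D + 1) * Fintype.card V = ∑ _x : V, (D + 1) := by
              rw [sum_const, card_univ, nsmul_eq_mul, mul_comm]
          _ ≤ _ := sum_le_sum (fun x _ => hdeg x)
      obtain ⟨A, hA, J, hJ, h4⟩ := ih V (G.deleteEdges {s(u0, v0)}) (by omega) hV (by nlinarith)
      exact ⟨A, hA, J, minor_trans hJ (minor_sub id Function.injective_id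
        (fun u v h => (deleteEdges_le _) h)), h4⟩
    push Not at hdeg
    obtain ⟨x, hx⟩ := hdeg
    by_cases hx0 : nb G x = ∅
    · -- delete an isolated vertex
      have h1 := pr_isolated hx0
      have h2 := card_delete x
      have h2' : (Fintype.card {y : V | y ≠ x} : ℝ) + 1 = Fintype.card V := by exact_mod_cast h2
      obtain ⟨A, hA, J, hJ, h4⟩ := ih {y : V | y ≠ x} (G.induce {y | y ≠ x}) (by omega) (by omega)
        (by
          rw [h1]
          nlinarith)
      exact ⟨A, hA, J, minor_trans hJ (induce_minor _ _), h4⟩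
    by_cases hc : ∃ u, G.Adj x u ∧ ((nb G x ∩ nb G u).card : ℝ) + 1 ≤ D / 2
    · -- contract an edge
      obtain ⟨u, hxu, hcu⟩ := hc
      have h1 := pr_contract hxu
      have h1' : (pr G : ℝ) ≤ pr (quot G (cmap x u hxu.ne)) + 2 * (1 + (nb G x ∩ nb G u).card) := by
        exact_mod_cast h1
      have h2 := card_delete' u
      have h2' : (Fintype.card {y : V // y ≠ u} : ℝ) + 1 = Fintype.card V := by exact_mod_cast h2
      have h6 := pr_quot_le G (cmap x u hxu.ne)
      obtain ⟨A, hA, J, hJ, h4⟩ := ih {y : V // y ≠ u} (quot G (cmap x u hxu.ne)) (by omega)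
        (by omega) (by nlinarith)
      exact ⟨A, hA, J, minor_trans hJ (contract_minor hxu), h4⟩
    · -- the neighbourhood of `x`
      push Not at hc
      refine ⟨{y : V // y ∈ nb G x}, inferInstance, G.induce {y | y ∈ nb G x}, ?_, ?_, ?_, ?_⟩
      · exact induce_minor _ _
      · rw [Fintype.card_coe]
        exact card_pos.2 (nonempty_iff_ne_empty.2 hx0)
      · rw [Fintype.card_coe]
        exact hx
      · rintro ⟨a, ha⟩
        have h1 := hc a (mem_nb.1 ha)
        have h2 := card_nb_induce G (nb G x) ⟨a, ha⟩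
        dsimp only at h2
        rw [inter_comm] at h2
        have h3 : ((nb G x ∩ nb G a).card : ℝ) =
            (nb (G.induce {y | y ∈ nb G x}) ⟨a, ha⟩).card := by
          exact_mod_cast h2.symm
        rw [h3] at h1
        linarith

/-- **Main bound**: for `t ≥ 2`, average degree at least `c t ^ 2` forces a grid minor as soon as
`4 ≤ c` and `1 + log c ≤ c / 2` -/
theorem main_bound {c : ℝ} (hc4 : 4 ≤ c) (hc : 1 + Real.log c ≤ c / 2) {t : ℕ} (ht : 2 ≤ t)
    {V : Type} [Fintype V] [Nonempty V] (G : SimpleGraph V)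
    (h : c * ((t : ℝ) * t) * Fintype.card V ≤ pr G) : IsMinor (grid t) G := by
  have h4 : 4 ≤ t * t := Nat.mul_le_mul ht ht
  set T : ℝ := (t : ℝ) * t with hT
  have hT4 : (4 : ℝ) ≤ T := by rw [hT]; exact_mod_cast h4
  have hTN : ((t * t : ℕ) : ℝ) = T := by rw [hT]; push_cast; ring
  set k : ℝ := ((t * t - 1 : ℕ) : ℝ) with hk
  have hkT : k = T - 1 := by
    rw [hk, Nat.cast_sub (by omega), hTN]
    simp
  have hD : 0 < c * T := by positivity
  obtain ⟨A, hA, J, hJ, hA0, hA1, hdeg⟩ := small_dense hD _ V G le_rfl Fintype.card_pos h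
  have hAne : Nonempty A := Fintype.card_pos_iff.1 hA0
  -- the number of vertices of `J` is at least `t * t`
  have hcard : t * t ≤ Fintype.card A := by
    obtain ⟨a⟩ := hAne
    have h1 : (nb J a).card < Fintype.card A := by
      apply card_lt_univ_of_notMem (x := a)
      rw [mem_nb]
      exact J.loopless.irrefl a
    have h2 := hdeg a
    have h3 : (T : ℝ) ≤ Fintype.card A := by
      have h5 : ((nb J a).card : ℝ) + 1 ≤ Fintype.card A := by exact_mod_cast h1
      nlinarith
    rw [← hTN] at h3
    exact_mod_cast h3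
  refine minor_trans (dense_minor ht (Fintype.card A) A J rfl hcard ?_) hJ
  have hA' : (0 : ℝ) < Fintype.card A := by exact_mod_cast hA0
  have hsum : (Fintype.card A : ℝ) * (c * T / 2 - 1) < pr J := by
    rw [pr_eq, Nat.cast_sum]
    calc (Fintype.card A : ℝ) * (c * T / 2 - 1) = ∑ _x : A, (c * T / 2 - 1) := by
          rw [sum_const, card_univ, nsmul_eq_mul]
      _ < _ := sum_lt_sum_of_nonempty (univ_nonempty_iff.2 hAne) (fun x _ => hdeg x)
  refine lt_of_le_of_lt (mul_le_mul_of_nonneg_left ?_ hA'.le) hsum
  have hk3 : 3 ≤ k := by rw [hkT]; linarith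
  have hA1' : ((Fintype.card A - 1 : ℕ) : ℝ) ≤ c * T := by
    rw [Nat.cast_sub (by omega)]
    push_cast
    linarith
  have hA2' : (0 : ℝ) < ((Fintype.card A - 1 : ℕ) : ℝ) := by
    have : 0 < Fintype.card A - 1 := by omega
    exact_mod_cast this
  have hlog1 : Real.log (((Fintype.card A - 1 : ℕ) : ℝ) / k) ≤ Real.log (c * T / k) := by
    apply Real.log_le_log (by positivity)
    gcongr
  have hlog2 : Real.log (c * T / k) ≤ Real.log c + 1 / k := by
    have e : c * T / k = c * (T / k) := by ring
    rw [e, Real.log_mul (by linarith) (by positivity)]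
    have h5 : Real.log (T / k) ≤ T / k - 1 := Real.log_le_sub_one_of_pos (by positivity)
    have h6 : T / k - 1 = 1 / k := by
      have : k ≠ 0 := by linarith
      field_simp
      linarith
    linarith
  calc k * (1 + Real.log (((Fintype.card A - 1 : ℕ) : ℝ) / k))
      ≤ k * (1 + (Real.log c + 1 / k)) := by
        apply mul_le_mul_of_nonneg_left _ (by linarith)
        linarith
    _ = k * (1 + Real.log c) + 1 := by
        have : k ≠ 0 := by linarith
        field_simp
        ring
    _ ≤ k * (c / 2) + 1 := by nlinarith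
    _ ≤ c * T / 2 - 1 := by rw [hkT]; nlinarith

/-- the `1 × 1` grid is a minor of every nonempty graph -/
lemma grid_one {V : Type} [Nonempty V] (G : SimpleGraph V) : IsMinor (grid 1) G := by
  have hsub : Subsingleton (Fin 1 × Fin 1) := inferInstance
  refine minor_sub (fun _ => Classical.arbitrary V) ?_ ?_
  · intro x y _
    exact Subsingleton.elim x y
  · intro u v h
    exact absurd (Subsingleton.elim u v) h.ne

/-- every `c ≥ 4` with `1 + log c ≤ c / 2` is grid-forcing -/
theorem gridForcing_of {c : ℝ} (hc4 : 4 ≤ c) (hc : 1 + Real.log c ≤ c / 2) : GridForcing c := by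
  intro t ht V _ _ G h
  rcases Nat.eq_or_lt_of_le ht with rfl | ht2
  · exact grid_one G
  · apply main_bound hc4 hc ht2 G
    have hV : (0 : ℝ) < Fintype.card V := by exact_mod_cast Fintype.card_pos
    rw [le_div_iff₀ hV] at h
    rw [pr_eq_two_mul]
    push_cast
    calc c * ((t : ℝ) * t) * Fintype.card V = c * (t : ℝ) ^ 2 * Fintype.card V := by ring
      _ ≤ _ := h

end Pool.Agent.Helper810.Grid
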