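import Mathlib
import Pool.Agent.Helper810_Grid.Host3
import Pool.Agent.Helper810_Grid.Start

/-!
The recursion on the number of vertices, with a computable certificate for each `t`.
-/

set_option autoImplicit false

namespace Pool.Agent.Helper810.Grid

open SimpleGraph Finset Classical

/-- every graph on `N` vertices with more than `P` ordered adjacent pairs has the grid as a minor -/
def Claim (t N P : ℕ) : Prop :=
  ∀ (V : Type) [Fintype V] (G : SimpleGraph V), Fintype.card V = N → P < pr G →
    IsMinor (grid t) G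

lemma exists_adj_of_pr {V : Type} [Fintype V] {G : SimpleGraph V} (h : 0 < pr G) :
    ∃ u v, G.Adj u v := by
  by_contra hcon
  push Not at hcon
  have : pr G = 0 := by
    unfold pr
    rw [card_eq_zero, filter_eq_empty_iff]
    rintro ⟨a, b⟩ _
    exact hcon a b
  omega

/-- deleting edges until the number of pairs is nearly prescribed -/
lemma exists_trim {V : Type} [Fintype V] (P : ℕ) : ∀ (n : ℕ) (G : SimpleGraph V), pr G ≤ n →
    P < pr G → ∃ H : SimpleGraph V, IsMinor H G ∧ P < pr H ∧ pr H ≤ P + 2 := by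
  intro n
  induction n with
  | zero => intro G h1 h2; omega
  | succ n ih =>
    intro G h1 h2
    by_cases h3 : pr G ≤ P + 2
    · exact ⟨G, minor_refl G, h2, h3⟩
    · obtain ⟨u, v, huv⟩ := exists_adj_of_pr (G := G) (by omega)
      have h4 := pr_delete huv
      obtain ⟨H, hH, h5⟩ := ih (G.deleteEdges {s(u, v)}) (by omega) (by omega)
      exact ⟨H, minor_trans hH (minor_sub id Function.injective_id
        (fun u v h => (deleteEdges_le _) h)), h5⟩

/-- the condition on the degree `d` of a vertex of minimum degree which allows one step with loss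
`l` in a graph on `N` vertices -/
def OkStep (t mb N d l : ℕ) : Prop :=
  (t * t + N ≤ 2 * d + 2 ∨ 5 * N < 6 * d + 4 ∨ (mb + N ≤ 2 * d ∧ t * t + t ≤ d + 1)) ∨
  d ≤ l ∨ (t * t ≤ d + 1 ∧ (t * t + d ≤ 2 * l + 3 ∨ 5 * d < 6 * l + 5 ∨
    (mb + d ≤ 2 * l + 1 ∧ t * t + t ≤ l + 2)))

/-- one step of the recursion -/
theorem claim_succ {t N mb s E l : ℕ} (ht : 2 ≤ t) (hmb : 1 ≤ mb) (hs1 : 4 * s < mb + 4)
    (hs2 : t * t + t ≤ mb + 2 * s + 2) (hN : t * t ≤ N + 1) (h : Claim t N (2 * E))
    (hok : ∀ d, d * (N + 1) ≤ 2 * (E + l) + 2 → OkStep t mb (N + 1) d l) :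
    Claim t (N + 1) (2 * (E + l)) := by
  intro V _ G hV hpr
  obtain ⟨H, hH, h1, h2⟩ := exists_trim (2 * (E + l)) _ G le_rfl hpr
  refine minor_trans ?_ hH
  have hne : Nonempty V := Fintype.card_pos_iff.1 (by omega)
  obtain ⟨v, hv, hd⟩ := exists_min_degree H
  rw [hV] at hd
  have hdlt : (nb H v).card < N + 1 := by
    rw [← hV]
    apply card_lt_univ_of_notMem (x := v)
    rw [mem_nb]
    exact H.loopless.irrefl v
  rcases hok (nb H v).card (hd.trans h2) with h3 | h3
  · refine jhost ht hmb hs1 hs2 (by omega) (by omega : (nb H v).card ≤ Fintype.card V) hv ?_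
    rw [hV]
    exact h3
  · rcases step_loss ht hmb hs1 hs2 v h3 with h4 | ⟨W, hW, H', hH', hcard, hle⟩
    · exact h4
    · exact minor_trans (h W H' (by omega) (by omega)) hH'

/-- the condition on a neighbourhood -/
def hvb (t T mb l d : ℕ) : Bool :=
  decide (T + d ≤ 2 * l + 3) || (decide (5 * d < 6 * l + 5) ||
    (decide (mb + d ≤ 2 * l + 1) && decide (T + t ≤ l + 2)))

/-- the condition on the whole graph -/
def hjb (t T mb N d : ℕ) : Bool :=
  decide (T + N ≤ 2 * d + 2) || (decide (5 * N < 6 * d + 4) ||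
    (decide (mb + N ≤ 2 * d) && decide (T + t ≤ d + 1)))

/-- the largest minimum degree which the condition on the whole graph does not cover -/
def dfail (t T mb N : ℕ) : ℕ :=
  min (min ((T + N - 1) / 2) ((5 * N - 4) / 6 + 1)) (max ((mb + N + 1) / 2) (T + t - 1)) - 1

/-- the check of one step -/
def chk (t T mb N E l : ℕ) : Bool :=
  decide ((2 * E + 2) / N ≤ l) || (hjb t T mb N (l + 1) || (decide (T ≤ l + 2) &&
    (hvb t T mb l ((2 * E + 2) / N) || (decide (dfail t T mb N ≤ l) ||
      hvb t T mb l (dfail t T mb N)))))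

lemma chk_sound {t mb N E l : ℕ} (ht : 2 ≤ t) (hN : 1 ≤ N) (h : chk t (t * t) mb N E l = true)
    (d : ℕ) (hd : d * N ≤ 2 * E + 2) : OkStep t mb N d l := by
  have hdm : d ≤ (2 * E + 2) / N := (Nat.le_div_iff_mul_le hN).2 hd
  have h4 : 4 ≤ t * t := Nat.mul_le_mul ht ht
  set T := t * t with hT
  set D := (2 * E + 2) / N with hD
  simp only [chk, hvb, hjb, Bool.or_eq_true, Bool.and_eq_true, decide_eq_true_eq] at h
  unfold OkStep
  rw [← hT]
  by_cases hdl : d ≤ l
  · exact Or.inr (Or.inl hdl)
  rcases h with h | h | ⟨h1, h⟩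
  · omega
  · left
    omega
  · rcases h with h | h
    · right; right
      exact ⟨by omega, by omega⟩
    · by_cases hdf : d ≤ dfail t T mb N
      · rcases h with h | h
        · omega
        · right; right
          exact ⟨by omega, by omega⟩
      · left
        unfold dfail at hdf
        omega

/-- the certificate -/
def cert (t T mb lam D : ℕ) : ℕ → ℕ → ℕ → ℕ → Bool
  | 0, _, _, _ => false
  | fuel + 1, N, E, l =>
    if D ≤ N then true
    else if chk t T mb (N + 1) (E + l) l then
      (if decide (N + 1 ≤ lam) || decide (2 * (E + l) < (N + 1) * lam) then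
        cert t T mb lam D fuel (N + 1) (E + l) l else false)
    else cert t T mb lam D fuel N E (l + 1)

theorem cert_sound {t mb s lam D : ℕ} (ht : 2 ≤ t) (hmb : 1 ≤ mb) (hs1 : 4 * s < mb + 4)
    (hs2 : t * t + t ≤ mb + 2 * s + 2) : ∀ (fuel N E l : ℕ),
    cert t (t * t) mb lam D fuel N E l = true → t * t ≤ N + 1 → Claim t N (2 * E) →
    ∀ N₀, N < N₀ → N₀ ≤ D → lam < N₀ → ∀ (V : Type) [Fintype V] (G : SimpleGraph V),
      Fintype.card V = N₀ → N₀ * lam ≤ pr G → IsMinor (grid t) G := by
  intro fuel
  induction fuel with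
  | zero => intro N E l h; simp [cert] at h
  | succ fuel ih =>
    intro N E l h hN hcl N₀ h1 h2 h3 V _ G hV hpr
    rw [cert] at h
    split_ifs at h with c1 c2 c3
    · omega
    · have hcl' : Claim t (N + 1) (2 * (E + l)) :=
        claim_succ ht hmb hs1 hs2 hN hcl
          (fun d hd => chk_sound ht (by omega) c2 d hd)
      rcases Nat.eq_or_lt_of_le h1 with h4 | h4
      · rw [Bool.or_eq_true, decide_eq_true_eq, decide_eq_true_eq] at c3
        have h5 : N + 1 = N₀ := h4
        rcases c3 with c3 | c3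
        · omega
        · apply hcl' V G (by omega)
          rw [← h5] at hpr
          omega
      · exact ih (N + 1) (E + l) l h (by omega) hcl' N₀ h4 h2 h3 V G hV hpr
    · exact ih N E (l + 1) h hN hcl N₀ h1 h2 h3 V G hV hpr

/-- the trivial start of the recursion -/
lemma claim_start (t N P : ℕ) (h : N * (N - 1) ≤ P) : Claim t N P := by
  intro V _ G hV hpr
  exfalso
  have h1 : pr G ≤ N * (N - 1) := by
    rw [pr_eq]
    calc ∑ v, (nb G v).card ≤ ∑ _v : V, (N - 1) := by
          apply sum_le_sum
          intro v _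
          have h1 : (nb G v).card < Fintype.card V := by
            apply card_lt_univ_of_notMem (x := v)
            rw [mem_nb]
            exact G.loopless.irrefl v
          omega
      _ = N * (N - 1) := by rw [sum_const, card_univ, hV, smul_eq_mul]
  omega

/-- the parameters `mb`, `s` for `t` -/
def par (X : ℕ) : ℕ × ℕ :=
  if X % 6 = 0 then (4 * (X / 6), X / 6)
  else if X % 6 ≤ 3 then (4 * (X / 6) + 1, X / 6 + 1)
  else if X % 6 = 4 then (4 * (X / 6) + 2, X / 6 + 1)
  else (4 * (X / 6) + 3, X / 6 + 1)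

/-- the full check for `t` with degree bound `2 * lam` -/
def fullCheck (t lam : ℕ) : Bool :=
  decide (1 ≤ (par (t * t + t - 2)).1) && (decide (t * t ≤ lam) &&
    cert t (t * t) (par (t * t + t - 2)).1 lam (2 * lam) (5 * (t * t)) (t * t - 1)
      ((t * t - 1) * (t * t - 2) / 2) 1)

lemma par_spec (X : ℕ) : 4 * (par X).2 < (par X).1 + 4 ∧ X ≤ (par X).1 + 2 * (par X).2 := by
  unfold par
  split_ifs <;> dsimp only <;> omega

/-- average degree at least `2 * lam` suffices -/
theorem fullCheck_sound {t lam : ℕ} (ht : 2 ≤ t) (h : fullCheck t lam = true) {V : Type}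
    [Fintype V] [Nonempty V] (G : SimpleGraph V)
    (hG : (2 * lam) * Fintype.card V ≤ pr G) : IsMinor (grid t) G := by
  have h4 : 4 ≤ t * t := Nat.mul_le_mul ht ht
  rw [fullCheck, Bool.and_eq_true, Bool.and_eq_true, decide_eq_true_eq, decide_eq_true_eq] at h
  obtain ⟨h1, h2, h3⟩ := h
  obtain ⟨p1, p2⟩ := par_spec (t * t + t - 2)
  have hD : (0 : ℝ) < 2 * lam := by
    have : 0 < lam := by omega
    have : (0 : ℝ) < lam := by exact_mod_cast this
    linarith
  obtain ⟨A, hA, J, hJ, hA0, hA1, hdeg⟩ := small_dense hD _ V G le_rfl Fintype.card_pos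
    (by exact_mod_cast hG)
  have hAne : Nonempty A := Fintype.card_pos_iff.1 hA0
  have hcard : Fintype.card A ≤ 2 * lam := by
    have : (Fintype.card A : ℝ) < (2 * lam + 1 : ℕ) := by
      push_cast
      exact hA1
    have : Fintype.card A < 2 * lam + 1 := by exact_mod_cast this
    omega
  have hdeg' : ∀ a, lam ≤ (nb J a).card := by
    intro a
    have h5 := hdeg a
    have h6 : (lam : ℝ) < ((nb J a).card + 1 : ℕ) := by
      push_cast
      linarith
    have : lam < (nb J a).card + 1 := by exact_mod_cast h6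
    omega
  have hlt : lam < Fintype.card A := by
    obtain ⟨a⟩ := hAne
    have h5 : (nb J a).card < Fintype.card A := by
      apply card_lt_univ_of_notMem (x := a)
      rw [mem_nb]
      exact J.loopless.irrefl a
    exact lt_of_le_of_lt (hdeg' a) h5
  have hpr : Fintype.card A * lam ≤ pr J := by
    rw [pr_eq]
    calc Fintype.card A * lam = ∑ _x : A, lam := by rw [sum_const, card_univ, smul_eq_mul]
      _ ≤ _ := sum_le_sum (fun x _ => hdeg' x)
  have hev : 2 * ((t * t - 1) * (t * t - 2) / 2) = (t * t - 1) * (t * t - 2) := by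
    apply Nat.mul_div_cancel'
    have h5 : t * t - 1 = (t * t - 2) + 1 := by omega
    rw [h5, mul_comm]
    exact (Nat.even_mul_succ_self _).two_dvd
  exact minor_trans (cert_sound ht h1 p1 (by omega) _ _ _ _ h3 (by omega)
    (claim_start t _ _ (by rw [hev]; exact (le_of_eq (by congr 1))))
    (Fintype.card A) (by omega) hcard hlt A J rfl hpr) hJ

end Pool.Agent.Helper810.Grid
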