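import Mathlib
import Pool.Agent.Helper810_Grid.Recur

/-!
The recursion for all large `t`.
-/

set_option autoImplicit false

namespace Pool.Agent.Helper810.Grid

open SimpleGraph Finset Classical

/-- region A: every step loses at most `t ^ 2 + t` edges -/
theorem regionA {t mb s S : ℕ} (ht : 2 ≤ t) (hS : S = t * t + t) (hmb : 1 ≤ mb)
    (hs1 : 4 * s < mb + 4) (hs2 : t * t + t ≤ mb + 2 * s + 2) (h3 : 3 * mb ≤ 2 * S + 3) :
    ∀ j, t * t - 1 + j ≤ 2 * S - 1 →
      Claim t (t * t - 1 + j) (2 * ((t * t - 1) * (t * t - 2) / 2 + S * j)) := by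
  have h4 : 4 ≤ t * t := Nat.mul_le_mul ht ht
  intro j
  induction j with
  | zero =>
    intro _
    have hev : 2 * ((t * t - 1) * (t * t - 2) / 2) = (t * t - 1) * (t * t - 2) := by
      apply Nat.mul_div_cancel'
      have h5 : t * t - 1 = (t * t - 2) + 1 := by omega
      rw [h5, mul_comm]
      exact (Nat.even_mul_succ_self _).two_dvd
    apply claim_start
    simp only [Nat.mul_zero, Nat.add_zero]
    rw [hev]
    exact le_of_eq (by congr 1)
  | succ j ih =>
    intro hj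
    have h1 := ih (by omega)
    have h2 : 2 * ((t * t - 1) * (t * t - 2) / 2 + S * (j + 1)) =
        2 * (((t * t - 1) * (t * t - 2) / 2 + S * j) + S) := by ring
    rw [h2, ← Nat.add_assoc]
    refine claim_succ ht hmb hs1 hs2 (by omega) h1 ?_
    intro d _
    unfold OkStep
    set T := t * t with hT
    by_cases hd : d ≤ S
    · exact Or.inr (Or.inl hd)
    · by_cases hd2 : mb + (T - 1 + j + 1) ≤ 2 * d
      · left; right; right
        exact ⟨hd2, by omega⟩
      · right; right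
        exact ⟨by omega, Or.inr (Or.inr ⟨by omega, by omega⟩)⟩

/-- the number of edges in region B -/
def EB (E0 S mb : ℕ) : ℕ → ℕ
  | 0 => E0
  | j + 1 => EB E0 S mb j + (2 * S + j + 3 * mb + 2) / 4

lemma EB_le (E0 S mb : ℕ) : ∀ j, 8 * EB E0 S mb j ≤ 8 * E0 + 2 * j * (2 * S + 3 * mb + 2) + j * j := by
  intro j
  induction j with
  | zero => simp [EB]
  | succ j ih =>
    rw [EB]
    have h1 : 4 * ((2 * S + j + 3 * mb + 2) / 4) ≤ 2 * S + j + 3 * mb + 2 := Nat.mul_div_le _ _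
    nlinarith

/-- region B -/
theorem regionB {t mb s S E0 : ℕ} (ht : 2 ≤ t) (hS : S = t * t + t) (hmb : 1 ≤ mb)
    (hs1 : 4 * s < mb + 4) (hs2 : t * t + t ≤ mb + 2 * s + 2) (h3 : 2 * S ≤ 3 * mb + 7)
    (h0 : Claim t (2 * S - 1) (2 * E0)) :
    ∀ j, Claim t (2 * S - 1 + j) (2 * EB E0 S mb j) := by
  have h4 : 4 ≤ t * t := Nat.mul_le_mul ht ht
  intro j
  induction j with
  | zero => exact h0
  | succ j ih =>
    rw [EB, ← Nat.add_assoc]
    refine claim_succ ht hmb hs1 hs2 (by omega) ih ?_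
    intro d _
    unfold OkStep
    set T := t * t with hT
    set l := (2 * S + j + 3 * mb + 2) / 4 with hl
    by_cases hd : d ≤ l
    · exact Or.inr (Or.inl hd)
    · by_cases hd2 : mb + (2 * S - 1 + j + 1) ≤ 2 * d ∧ T + t ≤ d + 1
      · exact Or.inl (Or.inr (Or.inr hd2))
      · right; right
        refine ⟨by omega, Or.inr (Or.inr ⟨by omega, by omega⟩)⟩

/-- a claim with a real average degree -/
def RClaim (t N : ℕ) (g : ℝ) : Prop :=
  ∀ (V : Type) [Fintype V] (G : SimpleGraph V), Fintype.card V = N → (N : ℝ) * g < pr G →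
    IsMinor (grid t) G

/-- one step in region C -/
theorem rclaim_succ {t N mb s S : ℕ} {g g' : ℝ} (ht : 2 ≤ t) (hS : S = t * t + t) (hmb : 1 ≤ mb)
    (hs1 : 4 * s < mb + 4) (hs2 : t * t + t ≤ mb + 2 * s + 2) (hN : 1 ≤ N)
    (h : RClaim t N g) (hg : 2 * (S : ℝ) ≤ g' + mb) (hgg : g + mb / N ≤ g') :
    RClaim t (N + 1) g' := by
  have h4 : 4 ≤ t * t := Nat.mul_le_mul ht ht
  intro V _ G hV hpr
  have hne : Nonempty V := Fintype.card_pos_iff.1 (by omega)
  obtain ⟨v, -, hd⟩ := exists_min_degree G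
  rw [hV] at hd
  set δ := (nb G v).card with hδ
  have hN0 : (0 : ℝ) < N := by exact_mod_cast hN
  have hN1 : ((N + 1 : ℕ) : ℝ) = N + 1 := by push_cast; ring
  rw [hN1] at hpr
  set d : ℝ := (pr G : ℝ) / (N + 1) with hdd
  have hpd : (pr G : ℝ) = d * (N + 1) := by
    rw [hdd]; field_simp
  have hdg : g' < d := by
    rw [hpd] at hpr
    nlinarith
  have hδd : (δ : ℝ) ≤ d := by
    rw [hdd, le_div_iff₀ (by linarith)]
    exact_mod_cast hd
  -- the loss
  set l := max (S - 2) ((mb + δ) / 2) with hl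
  have hl2 : 2 * (l : ℝ) ≤ mb + d := by
    rcases le_total (S - 2) ((mb + δ) / 2) with hle | hle
    · rw [hl, max_eq_right hle]
      have h5 : 2 * ((mb + δ) / 2) ≤ mb + δ := Nat.mul_div_le _ _
      have h6 : 2 * (((mb + δ) / 2 : ℕ) : ℝ) ≤ mb + δ := by exact_mod_cast h5
      linarith
    · rw [hl, max_eq_left hle]
      have h5 : 2 * (((S - 2 : ℕ)) : ℝ) ≤ 2 * (S : ℝ) := by
        have : ((S - 2 : ℕ) : ℝ) ≤ (S : ℝ) := by exact_mod_cast Nat.sub_le S 2
        linarith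
      linarith
  have hcond : (nb G v).card ≤ l ∨ (t * t ≤ (nb G v).card + 1 ∧
      (t * t + (nb G v).card ≤ 2 * l + 3 ∨ 5 * (nb G v).card < 6 * l + 5 ∨
      (mb + (nb G v).card ≤ 2 * l + 1 ∧ t * t + t ≤ l + 2))) := by
    rw [← hδ]
    by_cases hd : δ ≤ l
    · exact Or.inl hd
    · right
      have h5 : S - 2 ≤ l := le_max_left _ _
      have h6 : (mb + δ) / 2 ≤ l := le_max_right _ _
      exact ⟨by omega, Or.inr (Or.inr ⟨by omega, by omega⟩)⟩
  rcases step_loss ht hmb hs1 hs2 v hcond with h5 | ⟨W, hW, H, hH, hcard, hle⟩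
  · exact h5
  · refine minor_trans (h W H (by omega) ?_) hH
    have hle' : (pr G : ℝ) ≤ pr H + 2 * l := by exact_mod_cast hle
    have h6 : (mb : ℝ) = (N : ℝ) * (mb / N) := by field_simp
    have h7 : (N : ℝ) * (g + mb / N) ≤ N * g' := mul_le_mul_of_nonneg_left hgg hN0.le
    have h8 : (N : ℝ) * g' < N * d := mul_lt_mul_of_pos_left hdg hN0
    nlinarith

/-- region C -/
theorem regionC {t N₃ mb s S : ℕ} {g₃ : ℝ} (ht : 2 ≤ t) (hS : S = t * t + t) (hmb : 1 ≤ mb)
    (hs1 : 4 * s < mb + 4) (hs2 : t * t + t ≤ mb + 2 * s + 2) (hN : 2 ≤ N₃)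
    (h : RClaim t N₃ g₃) (hg : 2 * (S : ℝ) ≤ g₃ + mb) :
    ∀ j, RClaim t (N₃ + j) (g₃ + mb * Real.log (((N₃ + j : ℕ) - 1 : ℝ) / (N₃ - 1))) := by
  have hN' : (2 : ℝ) ≤ N₃ := by exact_mod_cast hN
  intro j
  induction j with
  | zero =>
    have : ((N₃ + 0 : ℕ) - 1 : ℝ) / (N₃ - 1) = 1 := by
      rw [Nat.add_zero]
      apply div_self
      linarith
    rw [this, Real.log_one, mul_zero]
    simp only [add_zero]
    exact h
  | succ j ih =>
    rw [← Nat.add_assoc]
    have hjr : (0 : ℝ) ≤ j := Nat.cast_nonneg j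
    have e1 : ((N₃ + j : ℕ) : ℝ) = N₃ + j := by push_cast; ring
    have e2 : ((N₃ + j + 1 : ℕ) : ℝ) = N₃ + j + 1 := by push_cast; ring
    have hlog0 : 0 ≤ Real.log (((N₃ + j + 1 : ℕ) - 1 : ℝ) / (N₃ - 1)) := by
      apply Real.log_nonneg
      rw [e2, le_div_iff₀ (by linarith)]
      linarith
    have hmb0 : (0 : ℝ) ≤ mb := Nat.cast_nonneg mb
    refine rclaim_succ ht hS hmb hs1 hs2 (by omega) ih ?_ ?_
    · have := mul_nonneg hmb0 hlog0
      linarith
    · rw [e1, e2]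
      have e3 : ((N₃ : ℝ) + j + 1 - 1) = N₃ + j := by ring
      rw [e3, Real.log_div (by linarith) (by linarith), Real.log_div (by linarith) (by linarith)]
      have h5 : Real.log (((N₃ : ℝ) + j - 1) / (N₃ + j)) ≤ ((N₃ : ℝ) + j - 1) / (N₃ + j) - 1 :=
        Real.log_le_sub_one_of_pos (by apply div_pos <;> linarith)
      rw [Real.log_div (by linarith) (by linarith)] at h5
      have h6 : ((N₃ : ℝ) + j - 1) / (N₃ + j) - 1 = - (1 / (N₃ + j)) := by
        have : (N₃ : ℝ) + j ≠ 0 := by linarith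
        field_simp
        ring
      rw [h6] at h5
      have h7 : (mb : ℝ) / (N₃ + j) = mb * (1 / (N₃ + j)) := by ring
      rw [h7]
      nlinarith

end Pool.Agent.Helper810.Grid
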