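import Mathlib
import Pool.Agent.Helper810_Grid.Analytic

/-!
The bound `3.9 t ^ 2` for `t ≥ 50`.
-/

set_option autoImplicit false

namespace Pool.Agent.Helper810.Grid


lemma real1 {T x N : ℝ} (hx : 50 ≤ x) (hT : 50 * x ≤ T) (hN : N ≤ 2 * (T + x) - 1) :
    (T - 1) * (T - 2) + 2 * (T + x) * (N - (T - 1)) ≤ N * (39 / 20 * T - 1) := by
  have h1 : N * (T / 20 + 2 * x + 1) ≤ 2 * (T + x) * (T / 20 + 2 * x + 1) :=
    mul_le_mul_of_nonneg_right (by linarith) (by linarith)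
  have h2 : 0 ≤ (T - 50 * x) * T := mul_nonneg (by linarith) (by linarith)
  have h3 : 0 ≤ (T - 50 * x) * x := mul_nonneg (by linarith) (by linarith)
  nlinarith

lemma real2 {T x j : ℝ} (hx : 50 ≤ x) (hT : 50 * x ≤ T) (hj0 : 0 ≤ j) (hj : j ≤ 3 / 5 * (T + x)) :
    (T - 1) * (T - 2) + 2 * (T + x) * (2 * (T + x) - T) + j * (4 * (T + x) + 5) / 2 + j * j / 4 ≤
      (2 * (T + x) - 1 + j) * (39 / 20 * T - 1) := by
  have h0 : 2500 ≤ T := by linarith
  have h2 : 0 ≤ (T - 50 * x) * T := mul_nonneg (by linarith) (by linarith)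
  have h3 : 0 ≤ (T - 50 * x) * x := mul_nonneg (by linarith) (by linarith)
  have hj' : j ≤ 612 / 1000 * T := by linarith
  have h4 : j * j ≤ (612 / 1000 * T) * (612 / 1000 * T) := mul_le_mul hj' hj' hj0 (by linarith)
  have h5 : j * T ≤ 612 / 1000 * T * T := mul_le_mul_of_nonneg_right hj' (by linarith)
  have h6 : j * x ≤ 612 / 1000 * T * x := mul_le_mul_of_nonneg_right hj' (by linarith)
  have h7 : 0 ≤ (T - 2500) * T := mul_nonneg (by linarith) (by linarith)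
  nlinarith

lemma real3 {T x S j : ℝ} (hx : 50 ≤ x) (hxx : x * x = T) (hS : S = T + x)
    (hj0 : 3 / 5 * S - 4 / 5 ≤ j) (hj : j ≤ 3 / 5 * S) :
    (T - 1) * (T - 2) + 2 * S * (2 * S - T) + j * (4 * S + 5) / 2 + j * j / 4 ≤
      (2 * S - 1 + j) * (33 / 20 * S + 1) := by
  have hT : 50 * x ≤ T := by nlinarith
  have h0 : 2500 ≤ T := by linarith
  have h1 : (2 * S - 1 + (3 / 5 * S - 4 / 5)) * (33 / 20 * S + 1) ≤
      (2 * S - 1 + j) * (33 / 20 * S + 1) := by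
    apply mul_le_mul_of_nonneg_right <;> linarith
  have h2 : j * j ≤ (3 / 5 * S) * (3 / 5 * S) := mul_le_mul hj hj (by linarith) (by linarith)
  have h3 : j * (4 * S + 5) ≤ (3 / 5 * S) * (4 * S + 5) :=
    mul_le_mul_of_nonneg_right hj (by linarith)
  subst hS
  nlinarith

lemma log32 : Real.log (3 / 2) ≤ 811 / 2000 := by
  rw [Real.log_le_iff_le_exp (by norm_num)]
  refine le_trans ?_ (Real.sum_le_exp_of_nonneg (by norm_num) 7)
  norm_num [Finset.sum_range_succ, Nat.factorial]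

lemma real4 {T x S m a b : ℝ} (hx : 50 ≤ x) (hxx : x * x = T) (hS : S = T + x) (hm0 : 0 ≤ m)
    (hm : 3 * m ≤ 2 * S + 3) (hb : 13 / 5 * S - 14 / 5 ≤ b) (ha : a ≤ 39 / 10 * T) (ha0 : 0 < a) :
    33 / 20 * S + 1 + m * Real.log (a / b) ≤ 39 / 20 * T - 1 := by
  have hT : 50 * x ≤ T := by nlinarith
  have h0 : 2500 ≤ T := by linarith
  have hc : (0 : ℝ) < 13 / 5 * S - 14 / 5 := by linarith
  have h1 : Real.log (a / b) ≤ Real.log (3 / 2 * ((13 / 5 * T) / (13 / 5 * S - 14 / 5))) := by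
    apply Real.log_le_log (div_pos ha0 (by linarith))
    have e : 3 / 2 * ((13 / 5 * T) / (13 / 5 * S - 14 / 5)) = (39 / 10 * T) / (13 / 5 * S - 14 / 5) := by
      ring
    rw [e]
    exact div_le_div₀ (by linarith) ha hc hb
  have h2 : Real.log (3 / 2 * ((13 / 5 * T) / (13 / 5 * S - 14 / 5))) =
      Real.log (3 / 2) + Real.log ((13 / 5 * T) / (13 / 5 * S - 14 / 5)) := by
    apply Real.log_mul (by norm_num)
    have : 0 < (13 / 5 * T) / (13 / 5 * S - 14 / 5) := div_pos (by linarith) hc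
    exact this.ne'
  have h3 : Real.log ((13 / 5 * T) / (13 / 5 * S - 14 / 5)) ≤
      (13 / 5 * T) / (13 / 5 * S - 14 / 5) - 1 :=
    Real.log_le_sub_one_of_pos (div_pos (by linarith) hc)
  have h4 : (13 / 5 * T) / (13 / 5 * S - 14 / 5) - 1 = - ((13 / 5 * x - 14 / 5) / (13 / 5 * S - 14 / 5)) := by
    rw [div_sub_one hc.ne', ← neg_div]
    congr 1
    linarith
  have h5 := log32
  obtain ⟨q, hq⟩ : ∃ q, q = (13 / 5 * x - 14 / 5) / (13 / 5 * S - 14 / 5) := ⟨_, rfl⟩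
  have hq0 : 0 ≤ q := by rw [hq]; apply div_nonneg <;> linarith
  have hq1 : q * (13 / 5 * S - 14 / 5) = 13 / 5 * x - 14 / 5 := by
    rw [hq, div_mul_cancel₀ _ hc.ne']
  have hqS : q * (2 * S) ≥ 2 * x - 28 / 13 := by nlinarith
  have hlog : Real.log (a / b) ≤ 811 / 2000 - q := by rw [← hq] at h4; linarith
  have hq2 : q ≤ 811 / 2000 := by
    rw [hq, div_le_iff₀ hc, hS]
    nlinarith
  have h6 : m * Real.log (a / b) ≤ m * (811 / 2000 - q) := mul_le_mul_of_nonneg_left hlog hm0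
  have h7 : 3 * m * (811 / 2000 - q) ≤ (2 * S + 3) * (811 / 2000 - q) :=
    mul_le_mul_of_nonneg_right hm (by linarith)
  nlinarith

open SimpleGraph Finset Classical

/-- `3.9 t ^ 2` suffices for `t ≥ 50` -/
theorem large_bound {t : ℕ} (ht : 50 ≤ t) {V : Type} [Fintype V] [Nonempty V] (G : SimpleGraph V)
    (h : (39 / 10) * ((t : ℝ) * t) * Fintype.card V ≤ pr G) : IsMinor (grid t) G := by
  have ht2 : 2 ≤ t := by omega
  have hTt : 50 * t ≤ t * t := Nat.mul_le_mul_right t ht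
  obtain ⟨S, hS⟩ : ∃ S, S = t * t + t := ⟨_, rfl⟩
  obtain ⟨σ, hσ⟩ : ∃ σ, σ = (S + 6) / 6 := ⟨_, rfl⟩
  obtain ⟨mb, hmb⟩ : ∃ mb, mb = 4 * σ - 3 := ⟨_, rfl⟩
  have hσ1 : S + 1 ≤ 6 * σ := by omega
  have hσ2 : 6 * σ ≤ S + 6 := by omega
  have hs1 : 4 * σ < mb + 4 := by omega
  have hs2 : t * t + t ≤ mb + 2 * σ + 2 := by omega
  have hmb1 : 1 ≤ mb := by omega
  have h3 : 3 * mb ≤ 2 * S + 3 := by omega
  have h3' : 2 * S ≤ 3 * mb + 7 := by omega
  obtain ⟨τ, hτ⟩ : ∃ τ, τ = t * t := ⟨_, rfl⟩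
  obtain ⟨j₃, hj₃⟩ : ∃ j₃, j₃ = 3 * S / 5 := ⟨_, rfl⟩
  obtain ⟨N₃, hN₃⟩ : ∃ N₃, N₃ = 2 * S - 1 + j₃ := ⟨_, rfl⟩
  have hRA := regionA ht2 hS hmb1 hs1 hs2 h3
  obtain ⟨E0, hE0⟩ : ∃ E0, E0 = (t * t - 1) * (t * t - 2) / 2 + S * (2 * S - t * t) := ⟨_, rfl⟩
  have hA' : Claim t (2 * S - 1) (2 * E0) := by
    have h5 := hRA (2 * S - t * t) (by omega)
    have h6 : t * t - 1 + (2 * S - t * t) = 2 * S - 1 := by omega
    rw [h6, ← hE0] at h5
    exact h5
  have hB := regionB ht2 hS hmb1 hs1 hs2 h3' hA'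
  have hEB := EB_le E0 S mb
  -- real quantities
  obtain ⟨T, hT⟩ : ∃ T : ℝ, T = (t : ℝ) * t := ⟨_, rfl⟩
  have hTN : ((t * t : ℕ) : ℝ) = T := by rw [hT]; push_cast; ring
  obtain ⟨x, hx⟩ : ∃ x : ℝ, x = (t : ℝ) := ⟨_, rfl⟩
  have hx50 : 50 ≤ x := by rw [hx]; exact_mod_cast ht
  have hTx : 50 * x ≤ T := by rw [hT, hx]; exact_mod_cast hTt
  have hxx : x * x = T := by rw [hT, hx]
  have hSr : (S : ℝ) = T + x := by rw [hS, hT, hx]; push_cast; ring
  have hT2500 : 2500 ≤ T := by linarith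
  have h3r : 3 * (mb : ℝ) ≤ 2 * S + 3 := by exact_mod_cast h3
  have h3r' : 2 * (S : ℝ) ≤ 3 * mb + 7 := by exact_mod_cast h3'
  have hev : 2 * ((t * t - 1) * (t * t - 2) / 2) = (t * t - 1) * (t * t - 2) := by
    apply Nat.mul_div_cancel'
    have h5 : t * t - 1 = (t * t - 2) + 1 := by omega
    rw [h5, mul_comm]
    exact (Nat.even_mul_succ_self _).two_dvd
  have hevr : 2 * (((t * t - 1) * (t * t - 2) / 2 : ℕ) : ℝ) = (T - 1) * (T - 2) := by
    have h5 : 2 * (((t * t - 1) * (t * t - 2) / 2 : ℕ) : ℝ) =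
        (((t * t - 1) * (t * t - 2) : ℕ) : ℝ) := by exact_mod_cast hev
    rw [h5, Nat.cast_mul, Nat.cast_sub (by omega), Nat.cast_sub (by omega), hTN]
    push_cast
    ring
  have hE0r : 2 * (E0 : ℝ) = (T - 1) * (T - 2) + 2 * (S : ℝ) * (2 * S - T) := by
    rw [hE0, Nat.cast_add, Nat.cast_mul, mul_add, hevr, Nat.cast_sub (by omega), hTN]
    push_cast
    ring
  have hEBr : ∀ j : ℕ, 2 * (EB E0 S mb j : ℝ) ≤
      (T - 1) * (T - 2) + 2 * (S : ℝ) * (2 * S - T) + j * (4 * S + 5) / 2 + j * j / 4 := by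
    intro j
    have h5 : 8 * (EB E0 S mb j : ℝ) ≤ 8 * E0 + 2 * j * (2 * S + 3 * mb + 2) + j * j := by
      exact_mod_cast hEB j
    have h6 : (j : ℝ) * (3 * mb) ≤ j * (2 * S + 3) :=
      mul_le_mul_of_nonneg_left h3r (Nat.cast_nonneg j)
    nlinarith
  -- the small dense minor
  have hD : 0 < (39 / 10 : ℝ) * T := by linarith
  rw [← hT] at h
  obtain ⟨A, hA, J, hJ, hA0, hA1, hdeg⟩ := small_dense hD _ V G le_rfl Fintype.card_pos h
  refine minor_trans ?_ hJ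
  have hAne : Nonempty A := Fintype.card_pos_iff.1 hA0
  obtain ⟨N₀, hN₀⟩ : ∃ N₀, N₀ = Fintype.card A := ⟨_, rfl⟩
  have hcard : T + 1 ≤ N₀ := by
    obtain ⟨a⟩ := hAne
    have h1 : (nb J a).card < Fintype.card A := by
      apply card_lt_univ_of_notMem (x := a)
      rw [mem_nb]
      exact J.loopless.irrefl a
    have h2 := hdeg a
    have h5 : ((nb J a).card : ℝ) + 1 ≤ Fintype.card A := by exact_mod_cast h1
    rw [hN₀]
    linarith
  have hcard' : t * t + 1 ≤ N₀ := by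
    rw [← hTN] at hcard
    exact_mod_cast hcard
  have hN0 : (0 : ℝ) < N₀ := by linarith
  have hsum : (N₀ : ℝ) * (39 / 20 * T - 1) < pr J := by
    rw [pr_eq, Nat.cast_sum, hN₀]
    calc (Fintype.card A : ℝ) * (39 / 20 * T - 1) = ∑ _x : A, (39 / 10 * T / 2 - 1) := by
          rw [sum_const, card_univ, nsmul_eq_mul]
          ring
      _ < _ := sum_lt_sum_of_nonempty (univ_nonempty_iff.2 hAne) (fun x _ => hdeg x)
  rw [← hN₀] at hA1
  rcases le_total N₀ (2 * S - 1) with c1 | c1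
  · -- the first region
    have h5 := hRA (N₀ - (t * t - 1)) (by omega)
    have h6 : t * t - 1 + (N₀ - (t * t - 1)) = N₀ := by omega
    rw [h6] at h5
    refine h5 A J hN₀.symm ?_
    have c1r : (N₀ : ℝ) ≤ 2 * (T + x) - 1 := by
      have h8 : N₀ + 1 ≤ 2 * S := by omega
      have h9 : (N₀ : ℝ) + 1 ≤ 2 * S := by exact_mod_cast h8
      rw [hSr] at h9
      linarith
    have h7 : ((2 * ((t * t - 1) * (t * t - 2) / 2 + S * (N₀ - (t * t - 1))) : ℕ) : ℝ) < pr J := by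
      have h8 : ((2 * ((t * t - 1) * (t * t - 2) / 2 + S * (N₀ - (t * t - 1))) : ℕ) : ℝ) =
          (T - 1) * (T - 2) + 2 * (T + x) * (N₀ - (T - 1)) := by
        rw [Nat.cast_mul, Nat.cast_add, Nat.cast_ofNat, mul_add, hevr, Nat.cast_mul, hSr,
          Nat.cast_sub (by omega), Nat.cast_sub (by omega), hTN, Nat.cast_one]
        ring
      rw [h8]
      exact lt_of_le_of_lt (real1 hx50 hTx c1r) hsum
    exact_mod_cast h7
  rcases le_total N₀ N₃ with c2 | c2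
  · -- the second region
    have h5 := hB (N₀ - (2 * S - 1))
    have h6 : 2 * S - 1 + (N₀ - (2 * S - 1)) = N₀ := by omega
    rw [h6] at h5
    refine h5 A J hN₀.symm ?_
    obtain ⟨j, hj⟩ : ∃ j, j = N₀ - (2 * S - 1) := ⟨_, rfl⟩
    rw [← hj]
    have hjr : (N₀ : ℝ) = 2 * (T + x) - 1 + j := by
      have h8 : N₀ + 1 = 2 * S + j := by omega
      have h9 : (N₀ : ℝ) + 1 = 2 * S + j := by exact_mod_cast h8
      rw [hSr] at h9
      linarith
    have hj3 : (j : ℝ) ≤ 3 / 5 * (T + x) := by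
      have h8 : 5 * j ≤ 3 * S := by omega
      have h9 : 5 * (j : ℝ) ≤ 3 * S := by exact_mod_cast h8
      rw [hSr] at h9
      linarith
    have h7 : ((2 * EB E0 S mb j : ℕ) : ℝ) < pr J := by
      rw [Nat.cast_mul, Nat.cast_ofNat]
      refine lt_of_le_of_lt ((hEBr j).trans ?_) hsum
      rw [hSr, hjr]
      exact real2 hx50 hTx (Nat.cast_nonneg j) hj3
    exact_mod_cast h7
  · -- the third region
    have hj₃1 : (j₃ : ℝ) ≤ 3 / 5 * S := by
      have h8 : 5 * j₃ ≤ 3 * S := by omega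
      have h9 : 5 * (j₃ : ℝ) ≤ 3 * S := by exact_mod_cast h8
      linarith
    have hj₃2 : 3 / 5 * (S : ℝ) - 4 / 5 ≤ j₃ := by
      have h8 : 3 * S ≤ 5 * j₃ + 4 := by omega
      have h9 : 3 * (S : ℝ) ≤ 5 * (j₃ : ℝ) + 4 := by exact_mod_cast h8
      linarith
    have hN₃r : (N₃ : ℝ) = 2 * S - 1 + j₃ := by
      have h8 : N₃ + 1 = 2 * S + j₃ := by omega
      have h9 : (N₃ : ℝ) + 1 = 2 * S + j₃ := by exact_mod_cast h8
      linarith
    have h5 : RClaim t N₃ (33 / 20 * S + 1) := by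
      intro W _ K hW hK
      have h6 := hB j₃
      rw [← hN₃] at h6
      refine h6 W K hW ?_
      have h7 : ((2 * EB E0 S mb j₃ : ℕ) : ℝ) < pr K := by
        rw [Nat.cast_mul, Nat.cast_ofNat]
        refine lt_of_le_of_lt ((hEBr j₃).trans ?_) hK
        rw [hN₃r]
        exact real3 hx50 hxx hSr hj₃2 hj₃1
      exact_mod_cast h7
    have h6 := regionC (N₃ := N₃) ht2 hS hmb1 hs1 hs2 (by omega) h5 (by linarith) (N₀ - N₃)
    have h7 : N₃ + (N₀ - N₃) = N₀ := by omega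
    rw [h7] at h6
    refine h6 A J hN₀.symm ?_
    refine lt_of_le_of_lt ?_ hsum
    apply mul_le_mul_of_nonneg_left _ hN0.le
    refine real4 hx50 hxx hSr (Nat.cast_nonneg mb) h3r ?_ ?_ ?_
    · rw [hN₃r]
      linarith only [hj₃2]
    · linarith only [hA1]
    · linarith only [hcard, hT2500]

end Pool.Agent.Helper810.Grid
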