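import Mathlib
import Pool.Agent.Helper810_Grid.Recur

/-!
Evaluation of the certificates for `2 ≤ t ≤ 22`.
-/

set_option autoImplicit false
set_option maxRecDepth 100000

namespace Pool.Agent.Helper810.Grid

lemma small1 : ∀ t ∈ List.range 23, 2 ≤ t → fullCheck t (39 * (t * t) / 20) = true := by
  decide +kernel

end Pool.Agent.Helper810.Grid
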