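import Mathlib
import Pool.Agent.Helper810_Grid.Recur

/-!
Evaluation of the certificates for `23 ≤ t ≤ 29`.
-/

set_option autoImplicit false
set_option maxRecDepth 100000

namespace Pool.Agent.Helper810.Grid

lemma fc23 : fullCheck 23 (39 * (23 * 23) / 20) = true := by decide +kernel

lemma fc24 : fullCheck 24 (39 * (24 * 24) / 20) = true := by decide +kernel

lemma fc25 : fullCheck 25 (39 * (25 * 25) / 20) = true := by decide +kernel

lemma fc26 : fullCheck 26 (39 * (26 * 26) / 20) = true := by decide +kernel

lemma fc27 : fullCheck 27 (39 * (27 * 27) / 20) = true := by decide +kernel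

lemma fc28 : fullCheck 28 (39 * (28 * 28) / 20) = true := by decide +kernel

lemma fc29 : fullCheck 29 (39 * (29 * 29) / 20) = true := by decide +kernel

end Pool.Agent.Helper810.Grid
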