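import Mathlib
import Pool.Agent.Helper810_Grid.Recur

/-!
Evaluation of the certificates for `30 ≤ t ≤ 34`.
-/

set_option autoImplicit false
set_option maxRecDepth 100000

namespace Pool.Agent.Helper810.Grid

lemma fc30 : fullCheck 30 (39 * (30 * 30) / 20) = true := by decide +kernel

lemma fc31 : fullCheck 31 (39 * (31 * 31) / 20) = true := by decide +kernel

lemma fc32 : fullCheck 32 (39 * (32 * 32) / 20) = true := by decide +kernel

lemma fc33 : fullCheck 33 (39 * (33 * 33) / 20) = true := by decide +kernel

lemma fc34 : fullCheck 34 (39 * (34 * 34) / 20) = true := by decide +kernel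

end Pool.Agent.Helper810.Grid
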