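import Mathlib
import Pool.Agent.Helper810_Grid.Recur

/-!
Evaluation of the certificates for `35 ≤ t ≤ 38`.
-/

set_option autoImplicit false
set_option maxRecDepth 100000

namespace Pool.Agent.Helper810.Grid

lemma fc35 : fullCheck 35 (39 * (35 * 35) / 20) = true := by decide +kernel

lemma fc36 : fullCheck 36 (39 * (36 * 36) / 20) = true := by decide +kernel

lemma fc37 : fullCheck 37 (39 * (37 * 37) / 20) = true := by decide +kernel

lemma fc38 : fullCheck 38 (39 * (38 * 38) / 20) = true := by decide +kernel

end Pool.Agent.Helper810.Grid
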