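import Mathlib
import Pool.Agent.Helper810_Grid.Recur

/-!
Evaluation of the certificates for `39 ≤ t ≤ 42`.
-/

set_option autoImplicit false
set_option maxRecDepth 100000

namespace Pool.Agent.Helper810.Grid

lemma fc39 : fullCheck 39 (39 * (39 * 39) / 20) = true := by decide +kernel

lemma fc40 : fullCheck 40 (39 * (40 * 40) / 20) = true := by decide +kernel

lemma fc41 : fullCheck 41 (39 * (41 * 41) / 20) = true := by decide +kernel

lemma fc42 : fullCheck 42 (39 * (42 * 42) / 20) = true := by decide +kernel

end Pool.Agent.Helper810.Grid
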