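import Mathlib
import Pool.Agent.Helper810_Grid.Recur

/-!
Evaluation of the certificates for `43 ≤ t ≤ 46`.
-/

set_option autoImplicit false
set_option maxRecDepth 100000

namespace Pool.Agent.Helper810.Grid

lemma fc43 : fullCheck 43 (39 * (43 * 43) / 20) = true := by decide +kernel

lemma fc44 : fullCheck 44 (39 * (44 * 44) / 20) = true := by decide +kernel

lemma fc45 : fullCheck 45 (39 * (45 * 45) / 20) = true := by decide +kernel

lemma fc46 : fullCheck 46 (39 * (46 * 46) / 20) = true := by decide +kernel

end Pool.Agent.Helper810.Grid
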