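import Mathlib
import Pool.Agent.Helper810_Grid.Recur

/-!
Evaluation of the certificates for `47 ≤ t ≤ 49`.
-/

set_option autoImplicit false
set_option maxRecDepth 100000

namespace Pool.Agent.Helper810.Grid

lemma fc47 : fullCheck 47 (39 * (47 * 47) / 20) = true := by decide +kernel

lemma fc48 : fullCheck 48 (39 * (48 * 48) / 20) = true := by decide +kernel

lemma fc49 : fullCheck 49 (39 * (49 * 49) / 20) = true := by decide +kernel

end Pool.Agent.Helper810.Grid
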