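import Mathlib
import Pool.Agent.Helper810_Grid.Large
import Pool.Agent.Helper810_Grid.Small1
import Pool.Agent.Helper810_Grid.Small2
import Pool.Agent.Helper810_Grid.Small3
import Pool.Agent.Helper810_Grid.Small4
import Pool.Agent.Helper810_Grid.Small5
import Pool.Agent.Helper810_Grid.Small6
import Pool.Agent.Helper810_Grid.Small7

/-!
The constant `3.9` is grid-forcing.
-/

set_option autoImplicit false

namespace Pool.Agent.Helper810.Grid

/-- the certificates for all `2 ≤ t ≤ 49` -/
lemma all_small {t : ℕ} (h2 : 2 ≤ t) (h : t < 50) : fullCheck t (39 * (t * t) / 20) = true := by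
  rcases Nat.lt_or_ge t 23 with h23 | h23
  · exact small1 t (List.mem_range.2 h23) h2
  · interval_cases t
    · exact fc23
    · exact fc24
    · exact fc25
    · exact fc26
    · exact fc27
    · exact fc28
    · exact fc29
    · exact fc30
    · exact fc31
    · exact fc32
    · exact fc33
    · exact fc34
    · exact fc35
    · exact fc36
    · exact fc37
    · exact fc38
    · exact fc39
    · exact fc40
    · exact fc41
    · exact fc42
    · exact fc43
    · exact fc44
    · exact fc45
    · exact fc46
    · exact fc47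
    · exact fc48
    · exact fc49

/-- `3.9 t ^ 2` suffices for `2 ≤ t < 50` -/
theorem small_bound {t : ℕ} (h2 : 2 ≤ t) (ht : t < 50) {V : Type} [Fintype V] [Nonempty V]
    (G : SimpleGraph V) (h : (39 / 10) * ((t : ℝ) * t) * Fintype.card V ≤ pr G) :
    IsMinor (grid t) G := by
  apply fullCheck_sound h2 (all_small h2 ht) G
  have h1 : ((39 * (t * t) / 20 : ℕ) : ℝ) ≤ 39 / 20 * ((t : ℝ) * t) := by
    have h3 : 20 * (39 * (t * t) / 20) ≤ 39 * (t * t) := Nat.mul_div_le _ _
    have h4 : (20 : ℝ) * ((39 * (t * t) / 20 : ℕ) : ℝ) ≤ 39 * ((t : ℝ) * t) := by exact_mod_cast h3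
    linarith
  have h5 : (((2 * (39 * (t * t) / 20)) * Fintype.card V : ℕ) : ℝ) ≤ pr G := by
    rw [Nat.cast_mul, Nat.cast_mul, Nat.cast_ofNat]
    refine le_trans (mul_le_mul_of_nonneg_right ?_ (Nat.cast_nonneg _)) h
    linarith
  exact_mod_cast h5

/-- the constant `3.9` is grid-forcing -/
theorem gridForcing39 : GridForcing (39 / 10) := by
  intro t ht V _ _ G h
  rcases Nat.eq_or_lt_of_le ht with rfl | ht2
  · exact grid_one G
  · have hV : (0 : ℝ) < Fintype.card V := by exact_mod_cast Fintype.card_pos
    rw [le_div_iff₀ hV] at h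
    have h' : (39 / 10) * ((t : ℝ) * t) * Fintype.card V ≤ pr G := by
      rw [pr_eq_two_mul]
      push_cast
      calc (39 / 10) * ((t : ℝ) * t) * Fintype.card V = 39 / 10 * (t : ℝ) ^ 2 * Fintype.card V := by
            ring
        _ ≤ _ := h
    rcases Nat.lt_or_ge t 50 with h50 | h50
    · exact small_bound ht2 h50 G h'
    · exact large_bound h50 G h'

end Pool.Agent.Helper810.Grid
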